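import Mathlib

/-!
# Positive quadratic forms along polynomial curves

If a positive semidefinite quadratic form `q` is bounded at `m + 1` points of the curve
`D t = ∑ t ^ j • x j` of degree `m`, and `x j = 0` for `j < j₀`, then `q (D t) = O (t ^ (2 j₀))`,
with a constant which depends only on `m`.
-/

set_option autoImplicit false
open Finset

namespace Pool.Agent.Zk14.Bar

/-- The properties of a positive semidefinite quadratic form which are used. -/
structure IsForm {E : Type} [AddCommGroup E] [Module ℝ E] (q : E → ℝ) : Prop where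
  nonneg : ∀ x, 0 ≤ q x
  smul : ∀ (c : ℝ) (x : E), q (c • x) = c ^ 2 * q x
  add : ∀ x y, q (x + y) ≤ 2 * q x + 2 * q y

theorem IsForm.zero {E : Type} [AddCommGroup E] [Module ℝ E] {q : E → ℝ} (hq : IsForm q) :
    q 0 = 0 := by
  have := hq.smul 0 0
  rw [zero_smul] at this
  rw [this]
  ring

theorem IsForm.sum {E ι : Type} [AddCommGroup E] [Module ℝ E] [DecidableEq ι] {q : E → ℝ}
    (hq : IsForm q) (S : Finset ι) (y : ι → E) :
    q (∑ i ∈ S, y i) ≤ 2 ^ S.card * ∑ i ∈ S, q (y i) := by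
  induction S using Finset.induction_on with
  | empty => simp [hq.zero]
  | insert a S ha ih =>
    rw [sum_insert ha, sum_insert ha, card_insert_of_notMem ha]
    have h1 := hq.add (y a) (∑ i ∈ S, y i)
    have h2 : (1 : ℝ) ≤ 2 ^ S.card := one_le_pow₀ (by norm_num)
    have h3 := hq.nonneg (y a)
    have h4 : q (y a) ≤ 2 ^ S.card * q (y a) := by nlinarith
    calc q (y a + ∑ i ∈ S, y i) ≤ 2 * q (y a) + 2 * q (∑ i ∈ S, y i) := h1
      _ ≤ 2 * (2 ^ S.card * q (y a)) + 2 * (2 ^ S.card * ∑ i ∈ S, q (y i)) := by linarith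
      _ = _ := by ring

/-- The nodes. -/
noncomputable def node (m : ℕ) (i : Fin (m + 1)) : ℝ := ((i : ℕ) + 1 : ℝ) / (m + 1)

theorem node_pos (m : ℕ) (i : Fin (m + 1)) : 0 < node m i := by
  unfold node
  positivity

theorem node_ge (m : ℕ) (i : Fin (m + 1)) : 1 / ((m : ℝ) + 1) ≤ node m i := by
  unfold node
  have : (0 : ℝ) < m + 1 := by positivity
  rw [div_le_div_iff_of_pos_right this]
  have : (0 : ℝ) ≤ (i : ℕ) := Nat.cast_nonneg _
  linarith

theorem node_le (m : ℕ) (i : Fin (m + 1)) : node m i ≤ 1 := by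
  unfold node
  have h : (0 : ℝ) < m + 1 := by positivity
  rw [div_le_one h]
  have : (i : ℕ) ≤ m := by omega
  have : ((i : ℕ) : ℝ) ≤ m := by exact_mod_cast this
  linarith

theorem node_inj (m : ℕ) : Function.Injective (node m) := by
  intro i j h
  unfold node at h
  have h0 : (m : ℝ) + 1 ≠ 0 := by positivity
  rw [div_left_inj' h0] at h
  have : ((i : ℕ) : ℝ) = ((j : ℕ) : ℝ) := by linarith
  exact Fin.ext (by exact_mod_cast this)

/-- The curve. -/
noncomputable def curve {E : Type} [AddCommGroup E] [Module ℝ E] {m : ℕ} (x : Fin (m + 1) → E)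
    (t : ℝ) : E := ∑ j : Fin (m + 1), t ^ (j : ℕ) • x j

theorem core (m : ℕ) : ∃ K : ℝ, 0 ≤ K ∧ ∀ (E : Type) [AddCommGroup E] [Module ℝ E] (q : E → ℝ),
    IsForm q → ∀ (x : Fin (m + 1) → E) (j₀ : ℕ) (C : ℝ), (∀ j : Fin (m + 1), (j : ℕ) < j₀ → x j = 0) →
    (∀ i, q (curve x (node m i)) ≤ C) →
    ∀ t, 0 ≤ t → t ≤ 1 → q (curve x t) ≤ K * C * t ^ (2 * j₀) := by
  let V : Matrix (Fin (m + 1)) (Fin (m + 1)) ℝ := Matrix.vandermonde (node m)
  have hV : IsUnit V.det :=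
    isUnit_iff_ne_zero.2 (Matrix.det_vandermonde_ne_zero_iff.2 (node_inj m))
  have hinv : V⁻¹ * V = 1 := Matrix.nonsing_inv_mul V hV
  let K1 : ℝ := ∑ j, 2 ^ (m + 1) * ∑ i, (V⁻¹ j i) ^ 2
  have hK1 : 0 ≤ K1 := by positivity
  refine ⟨2 ^ (m + 1) * K1, by positivity, ?_⟩
  intro E _ _ q hq x j₀ C hx hC t ht0 ht1
  have hC0 : 0 ≤ C := (hq.nonneg _).trans (hC 0)
  have hxj : ∀ j, x j = ∑ i, V⁻¹ j i • curve x (node m i) := by
    intro j
    unfold curve
    simp only [smul_sum, smul_smul]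
    rw [sum_comm]
    simp only [← sum_smul]
    have h1 : ∀ k : Fin (m + 1), ∑ i, V⁻¹ j i * node m i ^ (k : ℕ) =
        (1 : Matrix (Fin (m + 1)) (Fin (m + 1)) ℝ) j k := by
      intro k
      rw [← hinv, Matrix.mul_apply]
      rfl
    simp only [h1]
    rw [sum_eq_single j]
    · rw [Matrix.one_apply_eq, one_smul]
    · intro k _ hk
      rw [Matrix.one_apply_ne (Ne.symm hk), zero_smul]
    · intro h
      exact absurd (mem_univ _) h
  have hqx : ∀ j, q (x j) ≤ (2 ^ (m + 1) * ∑ i, (V⁻¹ j i) ^ 2) * C := by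
    intro j
    rw [hxj j]
    refine (hq.sum univ _).trans ?_
    rw [card_univ, Fintype.card_fin, mul_assoc, sum_mul]
    refine mul_le_mul_of_nonneg_left (sum_le_sum fun i _ => ?_) (by positivity)
    rw [hq.smul]
    exact mul_le_mul_of_nonneg_left (hC i) (sq_nonneg _)
  have h2 : q (curve x t) ≤ 2 ^ (m + 1) * ∑ j : Fin (m + 1), q (t ^ (j : ℕ) • x j) := by
    have := hq.sum univ (fun j : Fin (m + 1) => t ^ (j : ℕ) • x j)
    rwa [card_univ, Fintype.card_fin] at this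
  refine h2.trans ?_
  rw [mul_assoc, mul_assoc]
  refine mul_le_mul_of_nonneg_left ?_ (by positivity)
  rw [sum_mul]
  refine sum_le_sum fun j _ => ?_
  rw [hq.smul]
  by_cases hj : (j : ℕ) < j₀
  · rw [hx j hj, hq.zero]
    rw [mul_zero]
    positivity
  · push Not at hj
    have h3 : (t ^ (j : ℕ)) ^ 2 ≤ t ^ (2 * j₀) := by
      rw [← pow_mul]
      exact pow_le_pow_of_le_one ht0 ht1 (by omega)
    calc (t ^ (j : ℕ)) ^ 2 * q (x j)
        ≤ t ^ (2 * j₀) * ((2 ^ (m + 1) * ∑ i, (V⁻¹ j i) ^ 2) * C) :=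
          mul_le_mul h3 (hqx j) (hq.nonneg _) (by positivity)
      _ = _ := by ring

theorem curve_sub {E : Type} [AddCommGroup E] [Module ℝ E] {m : ℕ} (x y : Fin (m + 1) → E)
    (t : ℝ) : curve (fun j => x j - y j) t = curve x t - curve y t := by
  unfold curve
  rw [← sum_sub_distrib]
  exact sum_congr rfl fun j _ => smul_sub _ _ _

theorem IsForm.sub {E : Type} [AddCommGroup E] [Module ℝ E] {q : E → ℝ} (hq : IsForm q)
    (x y : E) : q (x - y) ≤ 2 * q x + 2 * q y := by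
  have h1 := hq.add x ((-1 : ℝ) • y)
  rw [hq.smul] at h1
  rw [show x - y = x + (-1 : ℝ) • y by rw [neg_smul, one_smul, sub_eq_add_neg]]
  linarith

theorem key_abs {N m k j₀ : ℕ} {K : ℝ} (hK0 : 0 ≤ K) {E : Type} [AddCommGroup E] [Module ℝ E]
    {q : E → ℝ} (hq : IsForm q)
    (hK : ∀ (x : Fin (m + 1) → E) (j₀ : ℕ) (C : ℝ),
      (∀ j : Fin (m + 1), (j : ℕ) < j₀ → x j = 0) → (∀ i, q (curve x (node m i)) ≤ C) →
      ∀ t, 0 ≤ t → t ≤ 1 → q (curve x t) ≤ K * C * t ^ (2 * j₀))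
    (xP xE : Fin (m + 1) → E) (hx : ∀ j : Fin (m + 1), (j : ℕ) < j₀ → xP j = xE j)
    {δ c : ℝ} (hδ2 : δ ≤ 2) (hc : 1 / 2 ≤ c) (hm : m ≤ N) (hk : k ≤ N)
    (hkj : 4 ≤ k + 2 * j₀)
    (hP : ∀ t, 0 < t → t ≤ 1 → t ^ k * q (curve xP t) ≤ 2 * 9 ^ N)
    (hE : ∀ t, 0 < t → t ≤ 1 → (c * t) ^ k * q (curve xE t) ≤ δ * 9 ^ N)
    {t : ℝ} (ht0 : 0 < t) (ht1 : t ≤ 1) :
    t ^ k * q (curve xP t) ≤
      2 ^ (N + 1) * 9 ^ N * δ + 2 * K * (8 * 9 ^ N * (2 * (N + 1)) ^ N) * t ^ 4 := by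
  have hN1 : (0 : ℝ) < 2 * (N + 1) := by positivity
  have hN2 : (1 : ℝ) ≤ 2 * (N + 1) := by
    have : (0 : ℝ) ≤ N := Nat.cast_nonneg N
    linarith
  have hnode : ∀ i, 1 / (2 * ((N : ℝ) + 1)) ≤ 1 / 2 * node m i := by
    intro i
    have h1 := node_ge m i
    have h2 : 1 / ((N : ℝ) + 1) ≤ 1 / ((m : ℝ) + 1) := by
      apply one_div_le_one_div_of_le (by positivity)
      have : (m : ℝ) ≤ N := by exact_mod_cast hm
      linarith
    have h3 : 1 / (2 * ((N : ℝ) + 1)) = 1 / 2 * (1 / ((N : ℝ) + 1)) := by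
      field_simp
    rw [h3]
    nlinarith
  have hlow : ∀ (u X Y : ℝ), 1 / (2 * ((N : ℝ) + 1)) ≤ u → 0 ≤ X → 0 ≤ Y → u ^ k * X ≤ Y →
      X ≤ (2 * ((N : ℝ) + 1)) ^ N * Y := by
    intro u X Y hu hX hY h
    have h1 : (1 / (2 * ((N : ℝ) + 1))) ^ k ≤ u ^ k :=
      pow_le_pow_left₀ (by positivity) hu k
    have h2 : (1 / (2 * ((N : ℝ) + 1))) ^ N ≤ (1 / (2 * ((N : ℝ) + 1))) ^ k :=
      pow_le_pow_of_le_one (by positivity) (by rw [div_le_one hN1]; exact hN2) hk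
    have h3 : (1 / (2 * ((N : ℝ) + 1))) ^ N * X ≤ Y :=
      (mul_le_mul_of_nonneg_right (h2.trans h1) hX).trans h
    have h4 : (2 * ((N : ℝ) + 1)) ^ N * ((1 / (2 * ((N : ℝ) + 1))) ^ N * X) = X := by
      rw [← mul_assoc, ← mul_pow, mul_one_div_cancel hN1.ne', one_pow, one_mul]
    calc X = (2 * ((N : ℝ) + 1)) ^ N * ((1 / (2 * ((N : ℝ) + 1))) ^ N * X) := h4.symm
      _ ≤ _ := mul_le_mul_of_nonneg_left h3 (by positivity)
  have h9 : (0 : ℝ) ≤ 2 * 9 ^ N := by positivity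
  have hδ9 : δ * (9 : ℝ) ^ N ≤ 2 * 9 ^ N := mul_le_mul_of_nonneg_right hδ2 (by positivity)
  have hnodes : ∀ i, q (curve (fun j => xP j - xE j) (node m i)) ≤
      8 * 9 ^ N * (2 * ((N : ℝ) + 1)) ^ N := by
    intro i
    rw [curve_sub]
    have hp := node_pos m i
    have hl := node_le m i
    have e1 := hlow (node m i) _ _ (by linarith [hnode i]) (hq.nonneg _) h9 (hP _ hp hl)
    have e2 := hlow (c * node m i) _ _ (by nlinarith [hnode i]) (hq.nonneg _) h9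
      ((hE _ hp hl).trans hδ9)
    have e3 := hq.sub (curve xP (node m i)) (curve xE (node m i))
    calc q (curve xP (node m i) - curve xE (node m i))
        ≤ 2 * q (curve xP (node m i)) + 2 * q (curve xE (node m i)) := e3
      _ ≤ 2 * ((2 * ((N : ℝ) + 1)) ^ N * (2 * 9 ^ N)) +
          2 * ((2 * ((N : ℝ) + 1)) ^ N * (2 * 9 ^ N)) := by linarith
      _ = _ := by ring
  have hD := hK (fun j => xP j - xE j) j₀ _ (fun j hj => sub_eq_zero.2 (hx j hj)) hnodes t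
    ht0.le ht1
  have hsplit : q (curve xP t) ≤
      2 * q (curve xE t) + 2 * q (curve (fun j => xP j - xE j) t) := by
    have := hq.add (curve xE t) (curve (fun j => xP j - xE j) t)
    rw [curve_sub, add_sub_cancel] at this
    rwa [curve_sub]
  have htk : 0 < t ^ k := by positivity
  have hfirst : t ^ k * q (curve xE t) ≤ 2 ^ N * (δ * 9 ^ N) := by
    have h1 := hE t ht0 ht1
    rw [mul_pow] at h1
    have h2 : (1 : ℝ) ≤ 2 ^ N * c ^ k := by
      have h3 : (1 / 2 : ℝ) ^ k ≤ c ^ k := pow_le_pow_left₀ (by norm_num) hc k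
      have h4 : (1 / 2 : ℝ) ^ N ≤ (1 / 2) ^ k := pow_le_pow_of_le_one (by norm_num) (by norm_num) hk
      calc (1 : ℝ) = 2 ^ N * (1 / 2) ^ N := by rw [← mul_pow]; norm_num
        _ ≤ _ := mul_le_mul_of_nonneg_left (h4.trans h3) (by positivity)
    have h5 : 0 ≤ t ^ k * q (curve xE t) := mul_nonneg htk.le (hq.nonneg _)
    calc t ^ k * q (curve xE t) = 1 * (t ^ k * q (curve xE t)) := by ring
      _ ≤ (2 ^ N * c ^ k) * (t ^ k * q (curve xE t)) := mul_le_mul_of_nonneg_right h2 h5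
      _ = 2 ^ N * (c ^ k * t ^ k * q (curve xE t)) := by ring
      _ ≤ _ := mul_le_mul_of_nonneg_left h1 (by positivity)
  have hsecond : t ^ k * q (curve (fun j => xP j - xE j) t) ≤
      K * (8 * 9 ^ N * (2 * ((N : ℝ) + 1)) ^ N) * t ^ 4 := by
    have h1 : t ^ k * t ^ (2 * j₀) ≤ t ^ 4 := by
      rw [← pow_add]
      exact pow_le_pow_of_le_one ht0.le ht1 hkj
    calc t ^ k * q (curve (fun j => xP j - xE j) t)
        ≤ t ^ k * (K * (8 * 9 ^ N * (2 * ((N : ℝ) + 1)) ^ N) * t ^ (2 * j₀)) :=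
          mul_le_mul_of_nonneg_left hD htk.le
      _ = K * (8 * 9 ^ N * (2 * ((N : ℝ) + 1)) ^ N) * (t ^ k * t ^ (2 * j₀)) := by ring
      _ ≤ _ := mul_le_mul_of_nonneg_left h1 (by positivity)
  calc t ^ k * q (curve xP t)
      ≤ t ^ k * (2 * q (curve xE t) + 2 * q (curve (fun j => xP j - xE j) t)) :=
        mul_le_mul_of_nonneg_left hsplit htk.le
    _ = 2 * (t ^ k * q (curve xE t)) + 2 * (t ^ k * q (curve (fun j => xP j - xE j) t)) := by
        ring
    _ ≤ 2 * (2 ^ N * (δ * 9 ^ N)) +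
        2 * (K * (8 * 9 ^ N * (2 * ((N : ℝ) + 1)) ^ N) * t ^ 4) := by linarith
    _ = _ := by ring

end Pool.Agent.Zk14.Bar
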