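import Mathlib

/-!
# Flag certificates: evaluation on blow-ups of a finite pattern

Definitions of flag certificates for the Turán density of the tetrahedron, and the evaluation of
such a certificate on the random blow-ups of a pattern.
-/

set_option autoImplicit false
open Finset

namespace Pool.Agent.Zk14.Bar

/-- The 3-graphs with `s` labelled roots and `m` further vertices. -/
abbrev Flag (s m : ℕ) : Type := Finset (Finset (Fin s ⊕ Fin m))

/-- All the matrices are positive semidefinite. -/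
def IsPSD (Q : (s m : ℕ) → Flag s m → Flag s m → ℝ) : Prop :=
  ∀ (s m : ℕ) (x : Flag s m → ℝ), 0 ≤ ∑ F, ∑ F', Q s m F F' * x F * x F'

/-- The hypergraph which `g` reads off from `H`. -/
def pull {U V : Type} [Fintype U] [DecidableEq U] [DecidableEq V] (g : U → V)
    (H : Finset (Finset V)) : Finset (Finset U) :=
  univ.filter fun e => e.image g ∈ H

/-- The roots and the first copy of the further vertices. -/
def lft (s m : ℕ) : Fin s ⊕ Fin m → Fin s ⊕ (Fin m ⊕ Fin m) := Sum.map id Sum.inl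

/-- The roots and the second copy of the further vertices. -/
def rgt (s m : ℕ) : Fin s ⊕ Fin m → Fin s ⊕ (Fin m ⊕ Fin m) := Sum.map id Sum.inr

/-- The average of `Q F F'` over the pairs of flags which overlap exactly in their roots. -/
noncomputable def square {N : ℕ} (Q : (s m : ℕ) → Flag s m → Flag s m → ℝ)
    (H : Finset (Finset (Fin N))) (s m : ℕ) : ℝ :=
  (∑ g : Fin s ⊕ (Fin m ⊕ Fin m) ↪ Fin N,
      Q s m (pull (g ∘ lft s m) H) (pull (g ∘ rgt s m) H)) /
    (Fintype.card (Fin s ⊕ (Fin m ⊕ Fin m) ↪ Fin N) : ℝ)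

/-- Every four vertices contain a triple which is not an edge. -/
def TetraFree {n : ℕ} (H : Finset (Finset (Fin n))) : Prop :=
  ∀ K : Finset (Fin n), K.card = 4 → ∃ e, e ⊆ K ∧ e.card = 3 ∧ e ∉ H

/-- The edge density plus the squares. -/
noncomputable def value {N : ℕ} (Q : (s m : ℕ) → Flag s m → Flag s m → ℝ)
    (H : Finset (Finset (Fin N))) : ℝ :=
  (H.card : ℝ) / (N.choose 3 : ℝ) +
    ∑ s ∈ range (N + 1), ∑ m ∈ range (N + 1), square Q H s m

/-- The 3-graph `H` arises by Fon-der-Flaass's construction from an orientation `R` of a complete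
tripartite graph with classes given by `c`. -/
def FonDerFlaass {n : ℕ} (H : Finset (Finset (Fin n))) : Prop :=
  ∃ (c : Fin n → Fin 3) (R : Fin n → Fin n → Prop),
    (∀ x y, c x ≠ c y → (R x y ↔ ¬ R y x)) ∧ (∀ x y, c x = c y → ¬ R x y) ∧
    ∀ e : Finset (Fin n), e ∈ H ↔ e.card = 3 ∧ (∃ x ∈ e, ∃ y ∈ e, c x ≠ c y) ∧
      ∀ x ∈ e, ∃ y ∈ e, y ≠ x ∧ ¬ R x y

section pattern

variable {B : Type}

/-- The 3-graph on `A` given by a map to the blocks of the pattern `G`. -/
def Str {A : Type} [Fintype A] [DecidableEq A] (G : B → B → B → Bool) (τ : A → B) :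
    Finset (Finset A) :=
  univ.filter fun e => e.card = 3 ∧ ∀ i ∈ e, ∀ j ∈ e, ∀ k ∈ e, i ≠ j → i ≠ k → j ≠ k →
    G (τ i) (τ j) (τ k) = true

theorem mem_Str {A : Type} [Fintype A] [DecidableEq A] {G : B → B → B → Bool} {τ : A → B}
    {e : Finset A} : e ∈ Str G τ ↔ e.card = 3 ∧ ∀ i ∈ e, ∀ j ∈ e, ∀ k ∈ e, i ≠ j → i ≠ k → j ≠ k →
    G (τ i) (τ j) (τ k) = true := by
  simp [Str]

theorem pull_Str {A A' : Type} [Fintype A] [DecidableEq A] [Fintype A'] [DecidableEq A']
    (G : B → B → B → Bool) (τ : A' → B) (f : A → A') (hf : Function.Injective f) :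
    pull f (Str G τ) = Str G (τ ∘ f) := by
  ext e
  simp only [pull, mem_filter, mem_univ, true_and, mem_Str, card_image_of_injective e hf,
    forall_mem_image, hf.ne_iff, Function.comp]

theorem Str_congr {A : Type} [Fintype A] [DecidableEq A] {G : B → B → B → Bool} {τ τ' : A → B}
    (h : ∀ i j k, i ≠ j → i ≠ k → j ≠ k → G (τ i) (τ j) (τ k) = G (τ' i) (τ' j) (τ' k)) :
    Str G τ = Str G τ' := by
  ext e
  rw [mem_Str, mem_Str]
  constructor
  · rintro ⟨h1, h2⟩
    refine ⟨h1, fun i hi j hj k hk a b c => ?_⟩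
    rw [← h i j k a b c]
    exact h2 i hi j hj k hk a b c
  · rintro ⟨h1, h2⟩
    refine ⟨h1, fun i hi j hj k hk a b c => ?_⟩
    rw [h i j k a b c]
    exact h2 i hi j hj k hk a b c

/-- `G` is symmetric. -/
def Symm3 (G : B → B → B → Bool) : Prop :=
  (∀ x y z, G x y z = G y x z) ∧ ∀ x y z, G x y z = G x z y

theorem triple_mem_Str {A : Type} [Fintype A] [DecidableEq A] {G : B → B → B → Bool}
    (hG : Symm3 G) (τ : A → B) {a b c : A} (hab : a ≠ b) (hac : a ≠ c) (hbc : b ≠ c) :
    ({a, b, c} : Finset A) ∈ Str G τ ↔ G (τ a) (τ b) (τ c) = true := by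
  rw [mem_Str]
  constructor
  · rintro ⟨-, h⟩
    exact h a (by simp) b (by simp) c (by simp) hab hac hbc
  · intro h
    refine ⟨card_eq_three.2 ⟨a, b, c, hab, hac, hbc, rfl⟩, ?_⟩
    have h1 : G (τ b) (τ a) (τ c) = true := by rw [← hG.1]; exact h
    have h2 : G (τ a) (τ c) (τ b) = true := by rw [← hG.2]; exact h
    have h3 : G (τ b) (τ c) (τ a) = true := by rw [← hG.2]; exact h1
    have h4 : G (τ c) (τ a) (τ b) = true := by rw [← hG.1]; exact h2
    have h5 : G (τ c) (τ b) (τ a) = true := by rw [← hG.1]; exact h3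
    intro i hi j hj k hk hij hik hjk
    simp only [mem_insert, mem_singleton] at hi hj hk
    rcases hi with rfl | rfl | rfl <;> rcases hj with rfl | rfl | rfl <;>
      rcases hk with rfl | rfl | rfl <;> first | assumption | (exfalso; simp_all)

theorem Str_three {A : Type} [Fintype A] [DecidableEq A] (G : B → B → B → Bool) (τ : A → B) :
    ∀ e ∈ Str G τ, e.card = 3 := fun _ he => (mem_Str.1 he).1

/-- No four blocks (possibly equal) span a tetrahedron. -/
def Good (G : B → B → B → Bool) : Prop :=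
  ∀ x y z w, G x y z = true → G x y w = true → G x z w = true → G y z w = true → False

theorem Str_tetraFree {n : ℕ} {G : B → B → B → Bool} (hG : Good G) (τ : Fin n → B) :
    TetraFree (Str G τ) := by
  intro K hK
  obtain ⟨a, b, c, d, hab, hac, had, hbc, hbd, hcd, rfl⟩ := card_eq_four.1 hK
  by_contra hcon
  push Not at hcon
  have key : ∀ x y z, x ≠ y → x ≠ z → y ≠ z → ({x, y, z} : Finset (Fin n)) ⊆ {a, b, c, d} →
      G (τ x) (τ y) (τ z) = true := by
    intro x y z hxy hxz hyz hsub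
    have := hcon _ hsub (card_eq_three.2 ⟨x, y, z, hxy, hxz, hyz, rfl⟩)
    exact (mem_Str.1 this).2 x (by simp) y (by simp) z (by simp) hxy hxz hyz
  refine hG (τ a) (τ b) (τ c) (τ d) (key _ _ _ hab hac hbc ?_) (key _ _ _ hab had hbd ?_)
    (key _ _ _ hac had hcd ?_) (key _ _ _ hbc hbd hcd ?_)
  all_goals
    intro x hx
    simp only [mem_insert, mem_singleton] at hx ⊢
    tauto

end pattern

section marg

variable {B : Type} [Fintype B]

/-- Marginalisation. -/
theorem marg {A A' : Type} [Fintype A] [Fintype A'] [DecidableEq A] [DecidableEq A']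
    (W : B → ℝ) (f : A → A') (hf : Function.Injective f) (g : (A → B) → ℝ) :
    ∑ τ : A' → B, (∏ i, W (τ i)) * g (τ ∘ f) =
      (∑ b, W b) ^ (Fintype.card A' - Fintype.card A) *
        ∑ ρ : A → B, (∏ i, W (ρ i)) * g ρ := by
  classical
  let C := {i : A' // i ∉ Set.range f}
  let e : A ⊕ C ≃ A' :=
    (Equiv.sumCongr (Equiv.ofInjective f hf) (Equiv.refl C)).trans (Equiv.sumCompl (· ∈ Set.range f))
  have he : ∀ a, e (Sum.inl a) = f a := fun a => rfl
  have hcard : Fintype.card A' - Fintype.card A = Fintype.card C := by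
    have := Fintype.card_congr e
    rw [Fintype.card_sum] at this
    omega
  rw [hcard]
  have h1 : ∑ τ : A' → B, (∏ i, W (τ i)) * g (τ ∘ f) =
      ∑ σ : A ⊕ C → B, (∏ i, W (σ i)) * g (σ ∘ Sum.inl) := by
    refine (Fintype.sum_equiv (Equiv.arrowCongr e (Equiv.refl B)) _ _ ?_).symm
    intro σ
    congr 1
    · refine Fintype.prod_equiv e _ _ ?_
      intro i
      simp [Equiv.arrowCongr]
    · congr 1
      funext a
      simp only [Function.comp, Equiv.arrowCongr_apply, Equiv.coe_refl, id]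
      rw [← he, Equiv.symm_apply_apply]
  have h2 : ∑ σ : A ⊕ C → B, (∏ i, W (σ i)) * g (σ ∘ Sum.inl) =
      ∑ p : (A → B) × (C → B), ((∏ i, W (p.1 i)) * ∏ i, W (p.2 i)) * g p.1 := by
    refine Fintype.sum_equiv (Equiv.sumArrowEquivProdArrow A C B) _ _ ?_
    intro σ
    rw [Fintype.prod_sum_type]
    rfl
  rw [h1, h2, Fintype.sum_prod_type, mul_sum]
  refine sum_congr rfl fun ρ _ => ?_
  have h3 : ∑ p : C → B, ∏ i, W (p i) = (∑ b, W b) ^ Fintype.card C := by
    have := Finset.prod_univ_sum (fun _ : C => (univ : Finset B)) (fun _ b => W b)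
    rw [Fintype.piFinset_univ] at this
    rw [← this, prod_const, card_univ]
  rw [← h3, sum_mul]
  refine sum_congr rfl fun p _ => ?_
  ring

end marg

section eval

variable {B : Type} [Fintype B]

/-- The total weight. -/
noncomputable def tot (W : B → ℝ) : ℝ := ∑ b, W b

/-- Indicator of a Boolean. -/
noncomputable def bi (b : Bool) : ℝ := cond b 1 0

/-- The weight of the edges of the pattern (ordered triples of blocks). -/
noncomputable def dens (G : B → B → B → Bool) (W : B → ℝ) : ℝ :=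
  ∑ x, ∑ y, ∑ z, W x * W y * W z * bi (G x y z)

/-- The vector of the flag densities at the roots `φ`. -/
noncomputable def view (G : B → B → B → Bool) {s : ℕ} (m : ℕ) (φ : Fin s → B) (W : B → ℝ) :
    Flag s m → ℝ :=
  fun F => ∑ ψ : Fin m → B, (∏ i, W (ψ i)) * (if Str G (Sum.elim φ ψ) = F then 1 else 0)

/-- The quadratic form of the certificate. -/
noncomputable def qf (Q : (s m : ℕ) → Flag s m → Flag s m → ℝ) (s m : ℕ) (x : Flag s m → ℝ) : ℝ :=
  ∑ F, ∑ F', Q s m F F' * x F * x F'

/-- The value of the square part at the pattern. -/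
noncomputable def sos (G : B → B → B → Bool) (Q : (s m : ℕ) → Flag s m → Flag s m → ℝ)
    (s m : ℕ) (W : B → ℝ) : ℝ :=
  ∑ φ : Fin s → B, (∏ i, W (φ i)) * qf Q s m (view G m φ W)

theorem sum_fin3 (g : (Fin 3 → B) → ℝ) :
    ∑ ρ : Fin 3 → B, g ρ = ∑ x, ∑ y, ∑ z, g ![x, y, z] := by
  let e : (Fin 3 → B) ≃ B × B × B :=
    { toFun := fun f => (f 0, f 1, f 2)
      invFun := fun p => ![p.1, p.2.1, p.2.2]
      left_inv := fun f => by
        funext i
        fin_cases i <;> rfl
      right_inv := fun p => rfl }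
  rw [Fintype.sum_equiv e g (fun p => g ![p.1, p.2.1, p.2.2]) (fun f => by
    congr 1
    funext i
    fin_cases i <;> rfl)]
  rw [Fintype.sum_prod_type]
  refine sum_congr rfl fun x _ => ?_
  rw [Fintype.sum_prod_type]

omit [Fintype B] in
theorem ind_edge {N : ℕ} {G : B → B → B → Bool} (hG : Symm3 G) {a b c : Fin N}
    (hab : a ≠ b) (hac : a ≠ c) (hbc : b ≠ c) (τ : Fin N → B) :
    (if ({a, b, c} : Finset (Fin N)) ∈ Str G τ then (1 : ℝ) else 0) =
      bi (G (τ a) (τ b) (τ c)) := by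
  by_cases h : G (τ a) (τ b) (τ c) = true
  · rw [if_pos ((triple_mem_Str hG τ hab hac hbc).2 h), h]
    rfl
  · rw [if_neg (fun h' => h ((triple_mem_Str hG τ hab hac hbc).1 h'))]
    rw [Bool.not_eq_true] at h
    rw [h]
    rfl

theorem sum_edge {N : ℕ} {G : B → B → B → Bool} (hG : Symm3 G) (W : B → ℝ) {e : Finset (Fin N)}
    (he : e.card = 3) :
    ∑ τ : Fin N → B, (∏ i, W (τ i)) * (if e ∈ Str G τ then (1 : ℝ) else 0) =
      tot W ^ (N - 3) * dens G W := by
  obtain ⟨a, b, c, hab, hac, hbc, rfl⟩ := card_eq_three.1 he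
  have hf : Function.Injective (![a, b, c] : Fin 3 → Fin N) := by
    intro i j hij
    fin_cases i <;> fin_cases j <;> simp_all
  have h := marg W (![a, b, c] : Fin 3 → Fin N) hf
    (fun ρ => bi (G (ρ 0) (ρ 1) (ρ 2)))
  rw [Fintype.card_fin, Fintype.card_fin] at h
  have h2 : ∑ τ : Fin N → B, (∏ i, W (τ i)) *
      (if ({a, b, c} : Finset (Fin N)) ∈ Str G τ then (1 : ℝ) else 0) =
      ∑ τ : Fin N → B, (∏ i, W (τ i)) *
        (fun ρ : Fin 3 → B => bi (G (ρ 0) (ρ 1) (ρ 2))) (τ ∘ ![a, b, c]) := by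
    refine sum_congr rfl fun τ _ => ?_
    rw [ind_edge hG hab hac hbc]
    rfl
  rw [h2, h, sum_fin3]
  unfold tot dens
  congr 1
  refine sum_congr rfl fun x _ => sum_congr rfl fun y _ => sum_congr rfl fun z _ => ?_
  rw [Fin.prod_univ_three]
  rfl

theorem sum_card {N : ℕ} {G : B → B → B → Bool} (hG : Symm3 G) (W : B → ℝ) :
    ∑ τ : Fin N → B, (∏ i, W (τ i)) * ((Str G τ).card : ℝ) =
      (N.choose 3 : ℝ) * (tot W ^ (N - 3) * dens G W) := by
  have h1 : ∀ τ : Fin N → B, ((Str G τ).card : ℝ) =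
      ∑ e ∈ powersetCard 3 (univ : Finset (Fin N)), if e ∈ Str G τ then (1 : ℝ) else 0 := by
    intro τ
    rw [sum_ite_mem, sum_const, nsmul_eq_mul, mul_one]
    congr 2
    ext e
    rw [mem_inter, mem_powersetCard]
    constructor
    · intro h
      exact ⟨⟨subset_univ _, Str_three G τ e h⟩, h⟩
    · exact fun h => h.2
  simp only [h1, mul_sum]
  rw [sum_comm]
  have h2 : ∀ e ∈ powersetCard 3 (univ : Finset (Fin N)),
      ∑ τ : Fin N → B, (∏ i, W (τ i)) * (if e ∈ Str G τ then (1 : ℝ) else 0) =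
      tot W ^ (N - 3) * dens G W := fun e he => sum_edge hG W (mem_powersetCard.1 he).2
  rw [sum_congr rfl h2, sum_const, card_powersetCard, card_univ, Fintype.card_fin, nsmul_eq_mul]

theorem sum_four {X Y : Type} [Fintype X] [Fintype Y] (f : X → X → Y → Y → ℝ) :
    ∑ a, ∑ b, ∑ c, ∑ d, f a b c d = ∑ c, ∑ d, ∑ a, ∑ b, f a b c d := by
  calc ∑ a, ∑ b, ∑ c, ∑ d, f a b c d = ∑ a, ∑ c, ∑ b, ∑ d, f a b c d :=
        sum_congr rfl fun a _ => sum_comm
    _ = ∑ a, ∑ c, ∑ d, ∑ b, f a b c d :=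
        sum_congr rfl fun a _ => sum_congr rfl fun c _ => sum_comm
    _ = ∑ c, ∑ a, ∑ d, ∑ b, f a b c d := sum_comm
    _ = ∑ c, ∑ d, ∑ a, ∑ b, f a b c d := sum_congr rfl fun c _ => sum_comm

theorem sum_split (G : B → B → B → Bool) (Q : (s m : ℕ) → Flag s m → Flag s m → ℝ)
    (s m : ℕ) (W : B → ℝ) :
    ∑ ρ : Fin s ⊕ (Fin m ⊕ Fin m) → B, (∏ i, W (ρ i)) *
      Q s m (Str G (ρ ∘ lft s m)) (Str G (ρ ∘ rgt s m)) = sos G Q s m W := by
  have h1 : ∑ ρ : Fin s ⊕ (Fin m ⊕ Fin m) → B, (∏ i, W (ρ i)) *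
      Q s m (Str G (ρ ∘ lft s m)) (Str G (ρ ∘ rgt s m)) =
      ∑ φ : Fin s → B, ∑ ψ : Fin m → B, ∑ ψ' : Fin m → B,
        (∏ i, W (φ i)) * ((∏ i, W (ψ i)) * ((∏ i, W (ψ' i)) *
          Q s m (Str G (Sum.elim φ ψ)) (Str G (Sum.elim φ ψ')))) := by
    rw [Fintype.sum_equiv (Equiv.sumArrowEquivProdArrow (Fin s) (Fin m ⊕ Fin m) B) _
      (fun p => ((∏ i, W (p.1 i)) * ∏ i, W (p.2 i)) *
        Q s m (Str G (Sum.elim p.1 p.2 ∘ lft s m)) (Str G (Sum.elim p.1 p.2 ∘ rgt s m)))
      (fun ρ => by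
        rw [Fintype.prod_sum_type]
        have : Sum.elim (Equiv.sumArrowEquivProdArrow (Fin s) (Fin m ⊕ Fin m) B ρ).1
            (Equiv.sumArrowEquivProdArrow (Fin s) (Fin m ⊕ Fin m) B ρ).2 = ρ := by
          funext i
          rcases i with i | i <;> rfl
        rw [this]
        rfl)]
    rw [Fintype.sum_prod_type]
    refine sum_congr rfl fun φ _ => ?_
    rw [Fintype.sum_equiv (Equiv.sumArrowEquivProdArrow (Fin m) (Fin m) B) _
      (fun p => (∏ i, W (φ i)) * ((∏ i, W (p.1 i)) * ((∏ i, W (p.2 i)) *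
        Q s m (Str G (Sum.elim φ p.1)) (Str G (Sum.elim φ p.2)))))
      (fun ρ => by
        rw [Fintype.prod_sum_type]
        have e1 : Sum.elim φ ρ ∘ lft s m =
            Sum.elim φ (Equiv.sumArrowEquivProdArrow (Fin m) (Fin m) B ρ).1 := by
          funext i
          rcases i with i | i <;> rfl
        have e2 : Sum.elim φ ρ ∘ rgt s m =
            Sum.elim φ (Equiv.sumArrowEquivProdArrow (Fin m) (Fin m) B ρ).2 := by
          funext i
          rcases i with i | i <;> rfl
        simp only [e1, e2, mul_assoc]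
        rfl)]
    rw [Fintype.sum_prod_type]
  rw [h1]
  unfold sos qf view
  refine sum_congr rfl fun φ _ => ?_
  simp only [← mul_sum]
  congr 1
  have h2 : ∀ (ψ ψ' : Fin m → B), Q s m (Str G (Sum.elim φ ψ)) (Str G (Sum.elim φ ψ')) =
      ∑ F, ∑ F', Q s m F F' * ((if Str G (Sum.elim φ ψ) = F then (1 : ℝ) else 0) *
        (if Str G (Sum.elim φ ψ') = F' then (1 : ℝ) else 0)) := by
    intro ψ ψ'
    rw [sum_eq_single (Str G (Sum.elim φ ψ)), sum_eq_single (Str G (Sum.elim φ ψ'))]
    · simp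
    · intro b _ hb
      rw [if_neg (Ne.symm hb)]
      simp
    · intro h
      exact absurd (mem_univ _) h
    · intro b _ hb
      rw [if_neg (Ne.symm hb)]
      simp
    · intro h
      exact absurd (mem_univ _) h
  calc ∑ ψ : Fin m → B, (∏ i, W (ψ i)) * ∑ ψ' : Fin m → B, (∏ i, W (ψ' i)) *
          Q s m (Str G (Sum.elim φ ψ)) (Str G (Sum.elim φ ψ'))
      = ∑ ψ : Fin m → B, ∑ ψ' : Fin m → B, ∑ F, ∑ F', Q s m F F' *
          (((∏ i, W (ψ i)) * (if Str G (Sum.elim φ ψ) = F then (1 : ℝ) else 0)) *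
          ((∏ i, W (ψ' i)) * (if Str G (Sum.elim φ ψ') = F' then (1 : ℝ) else 0))) := by
        refine sum_congr rfl fun ψ _ => ?_
        rw [mul_sum]
        refine sum_congr rfl fun ψ' _ => ?_
        rw [h2, mul_sum, mul_sum]
        refine sum_congr rfl fun F _ => ?_
        rw [mul_sum, mul_sum]
        refine sum_congr rfl fun F' _ => ?_
        ring
    _ = ∑ F, ∑ F', ∑ ψ : Fin m → B, ∑ ψ' : Fin m → B, Q s m F F' *
          (((∏ i, W (ψ i)) * (if Str G (Sum.elim φ ψ) = F then (1 : ℝ) else 0)) *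
          ((∏ i, W (ψ' i)) * (if Str G (Sum.elim φ ψ') = F' then (1 : ℝ) else 0))) :=
        sum_four _
    _ = _ := by
        refine sum_congr rfl fun F _ => sum_congr rfl fun F' _ => ?_
        simp only [← mul_sum]
        rw [mul_assoc, sum_mul_sum]
        simp only [mul_sum]

/-- The square part of a certificate, summed over a weighted pattern. -/
theorem sum_square {N : ℕ} (G : B → B → B → Bool) (Q : (s m : ℕ) → Flag s m → Flag s m → ℝ)
    (s m : ℕ) (W : B → ℝ) :
    ∑ τ : Fin N → B, (∏ i, W (τ i)) * square Q (Str G τ) s m =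
      if s + 2 * m ≤ N then tot W ^ (N - (s + 2 * m)) * sos G Q s m W else 0 := by
  have hE : ∀ g : Fin s ⊕ (Fin m ⊕ Fin m) ↪ Fin N,
      ∑ τ : Fin N → B, (∏ i, W (τ i)) *
        Q s m (pull (g ∘ lft s m) (Str G τ)) (pull (g ∘ rgt s m) (Str G τ)) =
      tot W ^ (N - (s + 2 * m)) * sos G Q s m W := by
    intro g
    have h := marg W g g.injective
      (fun ρ => Q s m (Str G (ρ ∘ lft s m)) (Str G (ρ ∘ rgt s m)))
    have hc : Fintype.card (Fin s ⊕ (Fin m ⊕ Fin m)) = s + 2 * m := by
      simp only [Fintype.card_sum, Fintype.card_fin]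
      ring
    rw [hc, Fintype.card_fin, sum_split] at h
    rw [show tot W = ∑ b, W b from rfl, ← h]
    refine sum_congr rfl fun τ _ => ?_
    have i1 : Function.Injective (g ∘ lft s m) :=
      g.injective.comp (Function.injective_id.sumMap Sum.inl_injective)
    have i2 : Function.Injective (g ∘ rgt s m) :=
      g.injective.comp (Function.injective_id.sumMap Sum.inr_injective)
    rw [pull_Str G τ _ i1, pull_Str G τ _ i2]
    rfl
  have h1 : ∑ τ : Fin N → B, (∏ i, W (τ i)) * square Q (Str G τ) s m =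
      (∑ g : Fin s ⊕ (Fin m ⊕ Fin m) ↪ Fin N, ∑ τ : Fin N → B, (∏ i, W (τ i)) *
        Q s m (pull (g ∘ lft s m) (Str G τ)) (pull (g ∘ rgt s m) (Str G τ))) /
      (Fintype.card (Fin s ⊕ (Fin m ⊕ Fin m) ↪ Fin N) : ℝ) := by
    rw [sum_comm, sum_div]
    refine sum_congr rfl fun τ _ => ?_
    unfold square
    rw [mul_div_assoc', mul_sum]
  rw [h1, sum_congr rfl fun g _ => hE g, sum_const, card_univ, nsmul_eq_mul]
  by_cases hN : s + 2 * m ≤ N
  · rw [if_pos hN]
    have hne : Nonempty (Fin s ⊕ (Fin m ⊕ Fin m) ↪ Fin N) := by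
      rw [Function.Embedding.nonempty_iff_card_le]
      simp only [Fintype.card_sum, Fintype.card_fin]
      omega
    have : (Fintype.card (Fin s ⊕ (Fin m ⊕ Fin m) ↪ Fin N) : ℝ) ≠ 0 := by
      exact_mod_cast Fintype.card_ne_zero
    field_simp
  · rw [if_neg hN]
    have hem : IsEmpty (Fin s ⊕ (Fin m ⊕ Fin m) ↪ Fin N) := by
      rw [← not_nonempty_iff, Function.Embedding.nonempty_iff_card_le]
      simp only [Fintype.card_sum, Fintype.card_fin]
      omega
    rw [Fintype.card_eq_zero]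
    simp

/-- The evaluation of a valid certificate. -/
theorem evaluate {N : ℕ} (hN : 3 ≤ N) {G : B → B → B → Bool} (hS : Symm3 G)
    {Q : (s m : ℕ) → Flag s m → Flag s m → ℝ} {lam : ℝ}
    (h : ∀ τ : Fin N → B, value Q (Str G τ) ≤ lam) :
    ∃ sl : (Fin N → B) → ℝ, (∀ τ, 0 ≤ sl τ) ∧ ∀ W : B → ℝ,
      tot W ^ (N - 3) * dens G W +
        (∑ s ∈ range (N + 1), ∑ m ∈ range (N + 1),
          if s + 2 * m ≤ N then tot W ^ (N - (s + 2 * m)) * sos G Q s m W else 0) +
        ∑ τ : Fin N → B, (∏ i, W (τ i)) * sl τ = lam * tot W ^ N := by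
  refine ⟨fun τ => lam - (((Str G τ).card : ℝ) / (N.choose 3 : ℝ) +
      ∑ s ∈ range (N + 1), ∑ m ∈ range (N + 1), square Q (Str G τ) s m), ?_, ?_⟩
  · intro τ
    have := h τ
    unfold value at this
    linarith
  · intro W
    have hch : (N.choose 3 : ℝ) ≠ 0 := by
      exact_mod_cast (Nat.choose_pos hN).ne'
    have e1 : tot W ^ (N - 3) * dens G W =
        ∑ τ : Fin N → B, (∏ i, W (τ i)) * (((Str G τ).card : ℝ) / (N.choose 3 : ℝ)) := by
      have := sum_card (N := N) hS W
      simp only [mul_div_assoc']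
      rw [← sum_div, this]
      field_simp
    have e2 : (∑ s ∈ range (N + 1), ∑ m ∈ range (N + 1),
          if s + 2 * m ≤ N then tot W ^ (N - (s + 2 * m)) * sos G Q s m W else 0) =
        ∑ τ : Fin N → B, (∏ i, W (τ i)) *
          ∑ s ∈ range (N + 1), ∑ m ∈ range (N + 1), square Q (Str G τ) s m := by
      simp only [← sum_square]
      simp only [mul_sum]
      calc ∑ s ∈ range (N + 1), ∑ m ∈ range (N + 1), ∑ τ : Fin N → B,
              (∏ i, W (τ i)) * square Q (Str G τ) s m
          = ∑ s ∈ range (N + 1), ∑ τ : Fin N → B, ∑ m ∈ range (N + 1),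
              (∏ i, W (τ i)) * square Q (Str G τ) s m :=
            sum_congr rfl fun s _ => sum_comm
        _ = _ := sum_comm
    have e3 : lam * tot W ^ N = ∑ τ : Fin N → B, (∏ i, W (τ i)) * lam := by
      rw [← sum_mul]
      have := Finset.prod_univ_sum (fun _ : Fin N => (univ : Finset B)) (fun _ b => W b)
      rw [Fintype.piFinset_univ] at this
      rw [← this, prod_const, card_univ, Fintype.card_fin]
      unfold tot
      ring
    rw [e1, e2, e3, ← sum_add_distrib, ← sum_add_distrib]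
    refine sum_congr rfl fun τ _ => ?_
    ring

/-- Squares are nonnegative at a pattern. -/
theorem sos_nonneg (G : B → B → B → Bool) {Q : (s m : ℕ) → Flag s m → Flag s m → ℝ}
    (hQ : IsPSD Q) (s m : ℕ) {W : B → ℝ} (hW : ∀ b, 0 ≤ W b) : 0 ≤ sos G Q s m W :=
  sum_nonneg fun _ _ => mul_nonneg (prod_nonneg fun _ _ => hW _) (hQ s m _)

theorem big_nonneg {N : ℕ} (G : B → B → B → Bool) {Q : (s m : ℕ) → Flag s m → Flag s m → ℝ}
    (hQ : IsPSD Q) {W : B → ℝ} (hW : ∀ b, 0 ≤ W b) (s m : ℕ) :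
    0 ≤ if s + 2 * m ≤ N then tot W ^ (N - (s + 2 * m)) * sos G Q s m W else 0 := by
  split_ifs
  · exact mul_nonneg (pow_nonneg (sum_nonneg fun b _ => hW b) _) (sos_nonneg G hQ s m hW)
  · exact le_rfl

end eval

/-! ### Soundness -/

theorem six_card {n : ℕ} {H : Finset (Finset (Fin n))} (h3 : ∀ e ∈ H, e.card = 3) :
    (6 * H.card : ℝ) ≤ ∑ x : Fin n, ∑ y : Fin n, ∑ z : Fin n,
      bi (decide (x ≠ y ∧ x ≠ z ∧ y ≠ z ∧ ({x, y, z} : Finset (Fin n)) ∈ H)) := by
  classical
  set T : Finset (Fin n × Fin n × Fin n) := univ.filter fun p =>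
    p.1 ≠ p.2.1 ∧ p.1 ≠ p.2.2 ∧ p.2.1 ≠ p.2.2 ∧ ({p.1, p.2.1, p.2.2} : Finset (Fin n)) ∈ H with hT
  have e1 : ∑ x : Fin n, ∑ y : Fin n, ∑ z : Fin n,
      bi (decide (x ≠ y ∧ x ≠ z ∧ y ≠ z ∧ ({x, y, z} : Finset (Fin n)) ∈ H)) = (T.card : ℝ) := by
    rw [hT, card_filter]
    push_cast
    rw [Fintype.sum_prod_type]
    refine sum_congr rfl fun x _ => ?_
    rw [Fintype.sum_prod_type]
    refine sum_congr rfl fun y _ => sum_congr rfl fun z _ => ?_
    unfold bi
    by_cases h : x ≠ y ∧ x ≠ z ∧ y ≠ z ∧ ({x, y, z} : Finset (Fin n)) ∈ H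
    · rw [decide_eq_true h, if_pos h]
      rfl
    · rw [decide_eq_false h, if_neg h]
      rfl
  rw [e1]
  have e2 : T.card = ∑ e ∈ H, (T.filter fun p => ({p.1, p.2.1, p.2.2} : Finset (Fin n)) = e).card :=
    card_eq_sum_card_fiberwise fun p hp => by
      rw [hT] at hp
      exact (mem_filter.1 hp).2.2.2.2
  have e3 : ∀ e ∈ H, 6 ≤ (T.filter fun p => ({p.1, p.2.1, p.2.2} : Finset (Fin n)) = e).card := by
    intro e he
    obtain ⟨a, b, c, hab, hac, hbc, rfl⟩ := card_eq_three.1 (h3 e he)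
    have hsub : ({(a, b, c), (a, c, b), (b, a, c), (b, c, a), (c, a, b), (c, b, a)} :
        Finset (Fin n × Fin n × Fin n)) ⊆
        T.filter fun p => ({p.1, p.2.1, p.2.2} : Finset (Fin n)) = {a, b, c} := by
      intro p hp
      have hset : ({p.1, p.2.1, p.2.2} : Finset (Fin n)) = {a, b, c} ∧ p.1 ≠ p.2.1 ∧
          p.1 ≠ p.2.2 ∧ p.2.1 ≠ p.2.2 := by
        simp only [mem_insert, mem_singleton] at hp
        rcases hp with rfl | rfl | rfl | rfl | rfl | rfl
        · exact ⟨rfl, hab, hac, hbc⟩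
        · refine ⟨?_, hac, hab, Ne.symm hbc⟩
          ext x; simp only [mem_insert, mem_singleton]; tauto
        · refine ⟨?_, Ne.symm hab, hbc, hac⟩
          ext x; simp only [mem_insert, mem_singleton]; tauto
        · refine ⟨?_, hbc, Ne.symm hab, Ne.symm hac⟩
          ext x; simp only [mem_insert, mem_singleton]; tauto
        · refine ⟨?_, Ne.symm hac, Ne.symm hbc, hab⟩
          ext x; simp only [mem_insert, mem_singleton]; tauto
        · refine ⟨?_, Ne.symm hbc, Ne.symm hac, Ne.symm hab⟩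
          ext x; simp only [mem_insert, mem_singleton]; tauto
      rw [mem_filter, hT, mem_filter]
      exact ⟨⟨mem_univ _, hset.2.1, hset.2.2.1, hset.2.2.2, by rw [hset.1]; exact he⟩, hset.1⟩
    have hcard : ({(a, b, c), (a, c, b), (b, a, c), (b, c, a), (c, a, b), (c, b, a)} :
        Finset (Fin n × Fin n × Fin n)).card = 6 := by
      rw [card_insert_of_notMem, card_insert_of_notMem, card_insert_of_notMem,
        card_insert_of_notMem, card_insert_of_notMem, card_singleton] <;>
        simp only [mem_insert, mem_singleton, Prod.mk.injEq] <;> tauto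
    rw [← hcard]
    exact card_le_card hsub
  have e4 : H.card * 6 ≤ T.card := by
    rw [e2, ← smul_eq_mul]
    exact card_nsmul_le_sum _ _ _ e3
  have e5 : ((H.card * 6 : ℕ) : ℝ) ≤ (T.card : ℝ) := by exact_mod_cast e4
  push_cast at e5
  linarith

/-- A certificate proves a bound for all tetrahedron-free 3-graphs. -/
theorem sound {N : ℕ} (hN : 3 ≤ N) {Q : (s m : ℕ) → Flag s m → Flag s m → ℝ} (hQ : IsPSD Q)
    {lam : ℝ} (h : ∀ H : Finset (Finset (Fin N)), (∀ e ∈ H, e.card = 3) → TetraFree H →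
      value Q H ≤ lam) {n : ℕ} (H : Finset (Finset (Fin n))) (h3 : ∀ e ∈ H, e.card = 3)
    (hH : TetraFree H) : (6 * H.card : ℝ) ≤ lam * (n : ℝ) ^ 3 := by
  classical
  rcases Nat.eq_zero_or_pos n with hn | hn
  · subst hn
    have : H = ∅ := by
      rw [eq_empty_iff_forall_notMem]
      intro e he
      have h1 := h3 e he
      have h2 := card_le_univ e
      rw [Fintype.card_fin] at h2
      omega
    rw [this]
    simp
  set G : Fin n → Fin n → Fin n → Bool := fun x y z =>
    decide (x ≠ y ∧ x ≠ z ∧ y ≠ z ∧ ({x, y, z} : Finset (Fin n)) ∈ H) with hG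
  have hset1 : ∀ x y z : Fin n, ({x, y, z} : Finset (Fin n)) = {y, x, z} := by
    intro x y z
    ext w; simp only [mem_insert, mem_singleton]; tauto
  have hset2 : ∀ x y z : Fin n, ({x, y, z} : Finset (Fin n)) = {x, z, y} := by
    intro x y z
    ext w; simp only [mem_insert, mem_singleton]; tauto
  have hS : Symm3 G := by
    constructor
    · intro x y z
      simp only [hG, decide_eq_decide]
      rw [hset1 x y z]
      constructor <;> rintro ⟨h1, h2, h4, h5⟩ <;> exact ⟨Ne.symm h1, h4, h2, h5⟩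
    · intro x y z
      simp only [hG, decide_eq_decide]
      rw [hset2 x y z]
      constructor <;> rintro ⟨h1, h2, h4, h5⟩ <;> exact ⟨h2, h1, Ne.symm h4, h5⟩
  have hgood : Good G := by
    intro x y z w h1 h2 h4 h5
    simp only [hG, decide_eq_true_eq] at h1 h2 h4 h5
    obtain ⟨e, he, hc, hne⟩ := hH {x, y, z, w} (by
      rw [card_insert_of_notMem, card_insert_of_notMem, card_insert_of_notMem, card_singleton]
      · simp only [mem_singleton]; exact h5.2.2.1
      · simp only [mem_insert, mem_singleton]; exact fun h => h.elim h1.2.2.1 h2.2.2.1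
      · simp only [mem_insert, mem_singleton]
        exact fun h => h.elim h1.1 (fun h => h.elim h1.2.1 h2.2.1))
    apply hne
    have hcard : ({x, y, z, w} : Finset (Fin n)).card = 4 := by
      rw [card_insert_of_notMem, card_insert_of_notMem, card_insert_of_notMem, card_singleton]
      · simp only [mem_singleton]; exact h5.2.2.1
      · simp only [mem_insert, mem_singleton]; exact fun h => h.elim h1.2.2.1 h2.2.2.1
      · simp only [mem_insert, mem_singleton]
        exact fun h => h.elim h1.1 (fun h => h.elim h1.2.1 h2.2.1)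
    have hsd : (({x, y, z, w} : Finset (Fin n)) \ e).card = 1 := by
      rw [card_sdiff_of_subset he, hcard, hc]
    obtain ⟨v, hv⟩ := card_eq_one.1 hsd
    have hvm : v ∈ ({x, y, z, w} : Finset (Fin n)) \ e := by rw [hv]; exact mem_singleton_self v
    have heq : e = ({x, y, z, w} : Finset (Fin n)).erase v := by
      rw [← sdiff_singleton_eq_erase, ← hv, Finset.sdiff_sdiff_eq_self he]
    have hvm' := (mem_sdiff.1 hvm).1
    simp only [mem_insert, mem_singleton] at hvm'
    rcases hvm' with rfl | rfl | rfl | rfl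
    · have : ({v, y, z, w} : Finset (Fin n)).erase v = {y, z, w} := by
        ext u
        simp only [mem_erase, mem_insert, mem_singleton]
        constructor
        · rintro ⟨h6, h7⟩
          tauto
        · intro h7
          refine ⟨?_, Or.inr h7⟩
          rintro rfl
          rcases h7 with h7 | h7 | h7
          · exact h1.1 h7
          · exact h1.2.1 h7
          · exact h2.2.1 h7
      rw [heq, this]
      exact h5.2.2.2
    · have : ({x, v, z, w} : Finset (Fin n)).erase v = {x, z, w} := by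
        ext u
        simp only [mem_erase, mem_insert, mem_singleton]
        constructor
        · rintro ⟨h6, h7⟩
          tauto
        · intro h7
          refine ⟨?_, by tauto⟩
          rintro rfl
          rcases h7 with h7 | h7 | h7
          · exact h1.1 h7.symm
          · exact h1.2.2.1 h7
          · exact h2.2.2.1 h7
      rw [heq, this]
      exact h4.2.2.2
    · have : ({x, y, v, w} : Finset (Fin n)).erase v = {x, y, w} := by
        ext u
        simp only [mem_erase, mem_insert, mem_singleton]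
        constructor
        · rintro ⟨h6, h7⟩
          tauto
        · intro h7
          refine ⟨?_, by tauto⟩
          rintro rfl
          rcases h7 with h7 | h7 | h7
          · exact h1.2.1 h7.symm
          · exact h1.2.2.1 h7.symm
          · exact h4.2.2.1 h7
      rw [heq, this]
      exact h2.2.2.2
    · have : ({x, y, z, v} : Finset (Fin n)).erase v = {x, y, z} := by
        ext u
        simp only [mem_erase, mem_insert, mem_singleton]
        constructor
        · rintro ⟨h6, h7⟩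
          tauto
        · intro h7
          refine ⟨?_, by tauto⟩
          rintro rfl
          rcases h7 with h7 | h7 | h7
          · exact h2.2.1 h7.symm
          · exact h2.2.2.1 h7.symm
          · exact h4.2.2.1 h7.symm
      rw [heq, this]
      exact h1.2.2.2
  obtain ⟨sl, hsl, heq⟩ := evaluate (G := G) hN hS
    (fun τ => h _ (Str_three G τ) (Str_tetraFree hgood τ))
  have h1 := heq (fun _ => 1)
  have htot : tot (fun _ : Fin n => (1 : ℝ)) = n := by
    unfold tot
    simp
  have h2 : 0 ≤ ∑ s ∈ range (N + 1), ∑ m ∈ range (N + 1),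
      if s + 2 * m ≤ N then tot (fun _ : Fin n => (1 : ℝ)) ^ (N - (s + 2 * m)) *
        sos G Q s m (fun _ => 1) else 0 :=
    sum_nonneg fun s _ => sum_nonneg fun m _ => big_nonneg G hQ (fun _ => zero_le_one) s m
  have h4 : 0 ≤ ∑ τ : Fin N → Fin n, (∏ i : Fin N, (fun _ : Fin n => (1 : ℝ)) (τ i)) * sl τ :=
    sum_nonneg fun τ _ => mul_nonneg (prod_nonneg fun _ _ => zero_le_one) (hsl τ)
  have h5 : tot (fun _ : Fin n => (1 : ℝ)) ^ (N - 3) * dens G (fun _ => 1) ≤
      lam * tot (fun _ : Fin n => (1 : ℝ)) ^ N := by linarith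
  rw [htot] at h5
  have h6 : (6 * H.card : ℝ) ≤ dens G (fun _ => 1) := by
    refine (six_card h3).trans (le_of_eq ?_)
    unfold dens
    refine sum_congr rfl fun x _ => sum_congr rfl fun y _ => sum_congr rfl fun z _ => ?_
    rw [one_mul, one_mul, one_mul]
  have hn' : (0 : ℝ) < (n : ℝ) ^ (N - 3) := by positivity
  have h7 : (n : ℝ) ^ N = (n : ℝ) ^ (N - 3) * (n : ℝ) ^ 3 := by
    rw [← pow_add]
    congr 1
    omega
  rw [h7] at h5
  have h8 : (n : ℝ) ^ (N - 3) * (6 * H.card : ℝ) ≤ (n : ℝ) ^ (N - 3) * (lam * (n : ℝ) ^ 3) := by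
    calc (n : ℝ) ^ (N - 3) * (6 * H.card : ℝ) ≤ (n : ℝ) ^ (N - 3) * dens G (fun _ => 1) :=
          mul_le_mul_of_nonneg_left h6 hn'.le
      _ ≤ lam * ((n : ℝ) ^ (N - 3) * (n : ℝ) ^ 3) := h5
      _ = _ := by ring
  exact le_of_mul_le_mul_left h8 hn'

end Pool.Agent.Zk14.Bar
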