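import Mathlib

/-!
# The pattern used in the barrier theorem

The pattern has 15 blocks `5 a + l` with `a : ZMod 3` (the class) and `l = 0, 1, 2, 3, 4`. The
levels of the blocks are `-11, -9, -1, 8, 10` for `l = 0, 1, 2, 3, 4`. From a block `x` of class `a`
to a block `y` of class `a + 1` there is an arc if the sum of the two levels is negative, and
otherwise there is an arc from `y` to `x`. A triple of blocks is an edge if the blocks are not all
in one class, and if none of the three sends arcs to both others (Fon-der-Flaass).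
The table `tbl` has the bit `15 (15 x + y) + z` set if `x, y, z` is an edge.
-/

set_option autoImplicit false
open Finset

namespace Pool.Agent.Zk14.Bar

/-- The table of the edges of the pattern. -/
def tbl : ℕ :=
  0x3c107860f1c1e783dff87df0f3e1c7c3007c21f7c7cf9f1f7c3ff0f81e18383070e0e3c1cffc7cf8f9f1e21f183e30f3e3e7cf8ffc7cf8f80f1c1c38307061e0c7fe7c7cf8c7cf0f9c1f3871f1e3ff3e3e7c7cf8079e0e3c187820f043ff7c39f1e3e787de0fbc30ffc70f9e1f7c3ef803df073e0c7c10f801ff7c3cf8f1f3c3ef07fff083e307ce0fbc1ff83e1f7c7cf9f1f7c3df0841e183c7079e0f7c1ef7c3cf871f0c3e1083ff0f3e3e7cf8e7c7cf8c60f0c1c3838f073e0e73e3e7c78f8c70f8c1ff871f1e31f3e3e7c7ce7078e0e1c187831f0631f3e3e73e3e787ce0ffc3087c70f9e1f7c3ef783cf071e0c3c10f8210fbc7cf9f1f7c3ef07c1f083e307ce0fbc1fffc1ef839f063e087c000fbe3e7cf8fbe1ff83e1f7c3cf871f0c3ff083df0f3e3c7cf0fbc3eff820f0c1e383cf07be01f3e3e7c78ffc70f8c1cf879f1e3e71f3e3e7fc307060e1c1c7839f01f1f3e3ff3e3e787ce0c7c38f8cf8f9f1f3e3fe38387060e0c3c18f81f0ffc7cf9f1f7c3ef043e11c3e787df0fbe1ff3c1c7830f041e087c1f0fbe3e7cf8fbe1ff8020f8c1f383ef07fe0ffbe0e7c18f821f003e0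

/-- The pattern. -/
def pat (x y z : Fin 15) : Bool := Nat.testBit tbl (15 * (15 * x.val + y.val) + z.val)

theorem pat_symm1 : ∀ x y z : Fin 15, pat x y z = pat y x z := by decide +kernel

theorem pat_symm2 : ∀ x y z : Fin 15, pat x y z = pat x z y := by decide +kernel

/-- No four blocks span a tetrahedron. -/
theorem pat_good : ∀ x y z : Fin 15, pat x y z = true → ∀ w : Fin 15, pat x y w = true →
    pat x z w = true → pat y z w = false := by decide +kernel

/-- The class of a block. -/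
def cls (b : Fin 15) : Fin 3 := ![0, 0, 0, 0, 0, 1, 1, 1, 1, 1, 2, 2, 2, 2, 2] b

/-- The level of a block, plus `11`. -/
def lev (b : Fin 15) : ℕ := ![0, 2, 10, 19, 21, 0, 2, 10, 19, 21, 0, 2, 10, 19, 21] b

/-- The arcs between the blocks. -/
def arc (x y : Fin 15) : Bool :=
  (cls y == cls x + 1 && Nat.blt (lev x + lev y) 22) ||
    (cls x == cls y + 1 && ! Nat.blt (lev x + lev y) 22)

theorem pat_arc : ∀ x y z : Fin 15, pat x y z = (! (cls x == cls y && cls x == cls z) &&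
    ! (arc x y && arc x z) && ! (arc y x && arc y z) && ! (arc z x && arc z y)) := by
  decide +kernel

theorem arc_iff : ∀ x y : Fin 15, cls x ≠ cls y → arc x y = ! arc y x := by decide +kernel

theorem arc_cls : ∀ x y : Fin 15, cls x = cls y → arc x y = false := by decide +kernel

/-- The three blocks of level `-1` are large (`0`), the other blocks are tiny (`1`). -/
def dg (b : Fin 15) : ℕ := if b = 2 ∨ b = 7 ∨ b = 12 then 0 else 1

/-- Support of the perturbed pattern. -/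
def aP (b : Fin 15) : ℕ := ![1, 0, 1, 0, 1, 0, 1, 1, 0, 1, 1, 0, 1, 1, 0] b

/-- Support of the first extremal pattern. -/
def a1 (b : Fin 15) : ℕ := ![1, 0, 1, 0, 1, 1, 0, 1, 0, 1, 1, 0, 1, 0, 1] b

/-- Support of the second extremal pattern. -/
def a2 (b : Fin 15) : ℕ := ![0, 1, 1, 1, 0, 0, 1, 1, 1, 0, 0, 1, 1, 1, 0] b

/-- Support of the third extremal pattern. -/
def a3 (_ : Fin 15) : ℕ := 1

/-- The involution comparing the perturbed pattern with the first one. -/
def b1 (b : Fin 15) : Fin 15 := ![0, 1, 2, 3, 4, 6, 5, 7, 8, 9, 10, 11, 12, 14, 13] b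

/-- The involution comparing the perturbed pattern with the second one. -/
def b2 (b : Fin 15) : Fin 15 := ![1, 0, 2, 4, 3, 5, 6, 7, 9, 8, 11, 10, 12, 13, 14] b

/-- The number of edges with `k` tiny blocks. -/
def cnt (a : Fin 15 → ℕ) (k : ℕ) : ℕ :=
  ∑ x, ∑ y, ∑ z, if pat x y z = true ∧ dg x + dg y + dg z = k then a x * a y * a z else 0

theorem cnt_P : cnt aP 0 = 15 ∧ cnt aP 1 = 90 ∧ cnt aP 2 = 180 ∧ cnt aP 3 = 114 := by
  decide +kernel

theorem cnt_1 : cnt a1 0 = 15 ∧ cnt a1 1 = 90 ∧ cnt a1 2 = 180 ∧ cnt a1 3 = 120 := by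
  decide +kernel

theorem cnt_2 : cnt a2 0 = 15 ∧ cnt a2 1 = 90 ∧ cnt a2 2 = 180 ∧ cnt a2 3 = 120 := by
  decide +kernel

theorem cnt_3 : cnt a3 0 = 15 ∧ cnt a3 1 = 180 ∧ cnt a3 2 = 720 ∧ cnt a3 3 = 960 := by
  decide +kernel

/-- The number of blocks. -/
def cnt1 (a : Fin 15 → ℕ) (k : ℕ) : ℕ := ∑ x, if dg x = k then a x else 0

theorem cnt1_P : cnt1 aP 0 = 3 ∧ cnt1 aP 1 = 6 := by decide +kernel

theorem cnt1_1 : cnt1 a1 0 = 3 ∧ cnt1 a1 1 = 6 := by decide +kernel

theorem cnt1_2 : cnt1 a2 0 = 3 ∧ cnt1 a2 1 = 6 := by decide +kernel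

theorem cnt1_3 : cnt1 a3 0 = 3 ∧ cnt1 a3 1 = 12 := by decide +kernel

/-- The properties of the comparison maps. -/
structure Compare (a : Fin 15 → ℕ) (β : Fin 15 → Fin 15) : Prop where
  invo : ∀ b, β (β b) = b
  supp : ∀ b, a (β b) = aP b
  deg : ∀ b, dg (β b) = dg b
  fix : ∀ b, dg b = 0 → β b = b

theorem comp1 : Compare a1 b1 := ⟨by decide +kernel, by decide +kernel, by decide +kernel,
  by decide +kernel⟩

theorem comp2 : Compare a2 b2 := ⟨by decide +kernel, by decide +kernel, by decide +kernel,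
  by decide +kernel⟩

/-- The block `x` does not distinguish the tiny blocks `b` and `β b`. -/
def Ok (β : Fin 15 → Fin 15) (x : Fin 15) : Prop :=
  ∀ b, aP b ≠ 0 → dg b = 1 → ∀ y, dg y = 0 → pat b x y = pat (β b) x y

instance (β : Fin 15 → Fin 15) (x : Fin 15) : Decidable (Ok β x) := by unfold Ok; infer_instance

theorem ok_large1 : ∀ x, dg x = 0 → Ok b1 x ∧ a1 x = 1 := by decide +kernel

theorem ok_large2 : ∀ x, dg x = 0 → Ok b2 x ∧ a2 x = 1 := by decide +kernel

theorem ok_tiny : ∀ x, aP x ≠ 0 → ¬ (Ok b1 x ∧ a1 x = 1) → Ok b2 x ∧ a2 x = 1 := by decide +kernel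

theorem dg_le : ∀ x, dg x ≤ 1 := by decide +kernel

theorem a_large : ∀ x, dg x = 0 → aP x = 1 := by decide +kernel

theorem aP_le : ∀ x, aP x ≤ 1 := by decide +kernel

end Pool.Agent.Zk14.Bar
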