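import Pool.Agent.Zk14.Bar.Eval
import Pool.Agent.Zk14.Bar.Core
import Pool.Agent.Zk14.Bar.Pattern

/-!
# The barrier: no plain flag certificate proves `5 / 9`
-/

set_option autoImplicit false
open Finset

namespace Pool.Agent.Zk14.Bar

/-! ### Quadratic forms of a certificate -/

theorem qf_isForm {Q : (s m : ℕ) → Flag s m → Flag s m → ℝ} (hQ : IsPSD Q) (s m : ℕ) :
    IsForm (qf Q s m) := by
  refine ⟨fun x => hQ s m x, ?_, ?_⟩
  · intro c x
    unfold qf
    rw [mul_sum]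
    refine sum_congr rfl fun F _ => ?_
    rw [mul_sum]
    refine sum_congr rfl fun F' _ => ?_
    simp only [Pi.smul_apply, smul_eq_mul]
    ring
  · intro x y
    have h1 : qf Q s m (x + y) + qf Q s m (x - y) = 2 * qf Q s m x + 2 * qf Q s m y := by
      unfold qf
      rw [mul_sum, mul_sum, ← sum_add_distrib, ← sum_add_distrib]
      refine sum_congr rfl fun F _ => ?_
      rw [mul_sum, mul_sum, ← sum_add_distrib, ← sum_add_distrib]
      refine sum_congr rfl fun F' _ => ?_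
      simp only [Pi.add_apply, Pi.sub_apply]
      ring
    have h2 : 0 ≤ qf Q s m (x - y) := hQ s m (x - y)
    linarith

/-! ### Consequences of the evaluation -/

section cons

variable {B : Type} [Fintype B]

theorem term_le {N : ℕ} {G : B → B → B → Bool} {Q : (s m : ℕ) → Flag s m → Flag s m → ℝ}
    {lam : ℝ} (hQ : IsPSD Q) {sl : (Fin N → B) → ℝ} (hsl : ∀ τ, 0 ≤ sl τ) {W : B → ℝ}
    (hW : ∀ b, 0 ≤ W b) (hT : 1 ≤ tot W)
    (heq : tot W ^ (N - 3) * dens G W +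
        (∑ s ∈ range (N + 1), ∑ m ∈ range (N + 1),
          if s + 2 * m ≤ N then tot W ^ (N - (s + 2 * m)) * sos G Q s m W else 0) +
        ∑ τ : Fin N → B, (∏ i, W (τ i)) * sl τ = lam * tot W ^ N)
    {s m : ℕ} (hsm : s + 2 * m ≤ N) (φ : Fin s → B) :
    (∏ i, W (φ i)) * qf Q s m (view G m φ W) ≤
      lam * tot W ^ N - tot W ^ (N - 3) * dens G W := by
  have h1 : 0 ≤ ∑ τ : Fin N → B, (∏ i, W (τ i)) * sl τ :=
    sum_nonneg fun τ _ => mul_nonneg (prod_nonneg fun i _ => hW _) (hsl τ)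
  have h2 : (if s + 2 * m ≤ N then tot W ^ (N - (s + 2 * m)) * sos G Q s m W else 0) ≤
      ∑ s ∈ range (N + 1), ∑ m ∈ range (N + 1),
          if s + 2 * m ≤ N then tot W ^ (N - (s + 2 * m)) * sos G Q s m W else 0 := by
    have hs : s ∈ range (N + 1) := by rw [mem_range]; omega
    have hm : m ∈ range (N + 1) := by rw [mem_range]; omega
    refine le_trans ?_ (single_le_sum (f := fun s => ∑ m ∈ range (N + 1),
      if s + 2 * m ≤ N then tot W ^ (N - (s + 2 * m)) * sos G Q s m W else 0)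
      (fun s _ => sum_nonneg fun m _ => big_nonneg G hQ hW s m) hs)
    exact single_le_sum (f := fun m =>
      if s + 2 * m ≤ N then tot W ^ (N - (s + 2 * m)) * sos G Q s m W else 0)
      (fun m _ => big_nonneg G hQ hW s m) hm
  rw [if_pos hsm] at h2
  have h3 : sos G Q s m W ≤ tot W ^ (N - (s + 2 * m)) * sos G Q s m W := by
    have h4 : (1 : ℝ) ≤ tot W ^ (N - (s + 2 * m)) := one_le_pow₀ hT
    have h5 := sos_nonneg G hQ s m hW
    nlinarith
  have h6 : (∏ i, W (φ i)) * qf Q s m (view G m φ W) ≤ sos G Q s m W :=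
    single_le_sum (f := fun φ : Fin s → B => (∏ i, W (φ i)) * qf Q s m (view G m φ W))
      (fun φ _ => mul_nonneg (prod_nonneg fun i _ => hW _) (hQ s m _)) (mem_univ φ)
  linarith

theorem slack_le {N : ℕ} {G : B → B → B → Bool} {Q : (s m : ℕ) → Flag s m → Flag s m → ℝ}
    {lam : ℝ} (hQ : IsPSD Q) {sl : (Fin N → B) → ℝ} {W : B → ℝ}
    (hW : ∀ b, 0 ≤ W b)
    (heq : tot W ^ (N - 3) * dens G W +
        (∑ s ∈ range (N + 1), ∑ m ∈ range (N + 1),
          if s + 2 * m ≤ N then tot W ^ (N - (s + 2 * m)) * sos G Q s m W else 0) +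
        ∑ τ : Fin N → B, (∏ i, W (τ i)) * sl τ = lam * tot W ^ N) :
    ∑ τ : Fin N → B, (∏ i, W (τ i)) * sl τ ≤
      lam * tot W ^ N - tot W ^ (N - 3) * dens G W := by
  have h2 : 0 ≤ ∑ s ∈ range (N + 1), ∑ m ∈ range (N + 1),
          if s + 2 * m ≤ N then tot W ^ (N - (s + 2 * m)) * sos G Q s m W else 0 :=
    sum_nonneg fun s _ => sum_nonneg fun m _ => big_nonneg G hQ hW s m
  linarith

end cons

/-! ### Weights -/

/-- The weight of a block. -/
noncomputable def wt (a : Fin 15 → ℕ) (u : ℝ) (b : Fin 15) : ℝ := (a b : ℝ) * u ^ dg b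

theorem wt_nonneg (a : Fin 15 → ℕ) {u : ℝ} (hu : 0 ≤ u) (b : Fin 15) : 0 ≤ wt a u b := by
  unfold wt
  positivity

theorem tot_wt (a : Fin 15 → ℕ) (u : ℝ) :
    tot (wt a u) = (cnt1 a 0 : ℝ) + (cnt1 a 1 : ℝ) * u := by
  unfold tot cnt1 wt
  push_cast
  rw [sum_mul, ← sum_add_distrib]
  refine sum_congr rfl fun b _ => ?_
  have h := dg_le b
  have h2 : dg b = 0 ∨ dg b = 1 := by omega
  rcases h2 with h2 | h2 <;> simp [h2]

theorem dens_wt (a : Fin 15 → ℕ) (u : ℝ) :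
    dens pat (wt a u) = (cnt a 0 : ℝ) + (cnt a 1 : ℝ) * u + (cnt a 2 : ℝ) * u ^ 2 +
      (cnt a 3 : ℝ) * u ^ 3 := by
  unfold dens cnt wt
  push_cast
  simp only [sum_mul, ← sum_add_distrib]
  refine sum_congr rfl fun x _ => sum_congr rfl fun y _ => sum_congr rfl fun z _ => ?_
  have hx : dg x = 0 ∨ dg x = 1 := by have := dg_le x; omega
  have hy : dg y = 0 ∨ dg y = 1 := by have := dg_le y; omega
  have hz : dg z = 0 ∨ dg z = 1 := by have := dg_le z; omega
  by_cases hG : pat x y z = true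
  · rw [hG]
    rcases hx with hx | hx <;> rcases hy with hy | hy <;> rcases hz with hz | hz <;>
      simp [hx, hy, hz, bi] <;> ring
  · rw [Bool.not_eq_true] at hG
    rw [hG]
    simp [bi]

/-- The coefficient of `u ^ j` in the view. -/
noncomputable def coef (a : Fin 15 → ℕ) {s : ℕ} (m : ℕ) (φ : Fin s → Fin 15) (j : ℕ) :
    Flag s m → ℝ :=
  fun F => ∑ ψ : Fin m → Fin 15, if ∑ i, dg (ψ i) = j then
    (∏ i, (a (ψ i) : ℝ)) * (if Str pat (Sum.elim φ ψ) = F then 1 else 0) else 0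

theorem view_wt (a : Fin 15 → ℕ) {s : ℕ} (m : ℕ) (φ : Fin s → Fin 15) (c t : ℝ) :
    view pat m φ (wt a (c * t)) = curve (fun j : Fin (m + 1) => c ^ (j : ℕ) • coef a m φ j) t := by
  funext F
  unfold view curve coef wt
  simp only [Finset.sum_apply, Pi.smul_apply, smul_eq_mul, mul_sum]
  rw [sum_comm]
  refine sum_congr rfl fun ψ _ => ?_
  have hle : ∑ i, dg (ψ i) ≤ m := by
    calc ∑ i, dg (ψ i) ≤ ∑ i : Fin m, 1 := sum_le_sum fun i _ => dg_le _
      _ = m := by simp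
  rw [sum_eq_single (⟨∑ i, dg (ψ i), by omega⟩ : Fin (m + 1))]
  · rw [if_pos rfl, prod_mul_distrib, prod_pow_eq_pow_sum, mul_pow]
    ring
  · intro j _ hj
    rw [if_neg]
    · ring
    · intro h
      exact hj (Fin.ext h.symm)
  · intro h
    exact absurd (mem_univ _) h

theorem prod_wt {a : Fin 15 → ℕ} {s : ℕ} {φ : Fin s → Fin 15} (ha : ∀ i, a (φ i) = 1) (u : ℝ) :
    ∏ i, wt a u (φ i) = u ^ ∑ i, dg (φ i) := by
  unfold wt
  rw [prod_mul_distrib, prod_pow_eq_pow_sum]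
  simp [ha]

/-! ### Comparison of the views -/

theorem coef_zero {a a' : Fin 15 → ℕ} (h : ∀ b, dg b = 0 → a b = a' b) {s : ℕ} (m : ℕ)
    (φ : Fin s → Fin 15) : coef a m φ 0 = coef a' m φ 0 := by
  funext F
  unfold coef
  refine sum_congr rfl fun ψ _ => ?_
  by_cases h0 : ∑ i, dg (ψ i) = 0
  · rw [if_pos h0, if_pos h0]
    rw [sum_eq_zero_iff] at h0
    congr 1
    exact prod_congr rfl fun i _ => by rw [h _ (h0 i (mem_univ i))]
  · rw [if_neg h0, if_neg h0]

theorem Str_congr_one {A : Type} [Fintype A] [DecidableEq A] {B : Type} {G : B → B → B → Bool}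
    (hG : Symm3 G) {τ τ' : A → B} (p : A) (hp : ∀ i, i ≠ p → τ i = τ' i)
    (h : ∀ j k, j ≠ p → k ≠ p → j ≠ k → G (τ p) (τ j) (τ k) = G (τ' p) (τ j) (τ k)) :
    Str G τ = Str G τ' := by
  refine Str_congr fun i j k hij hik hjk => ?_
  by_cases h1 : i = p
  · subst h1
    rw [h j k (Ne.symm hij) (Ne.symm hik) hjk, hp j (Ne.symm hij), hp k (Ne.symm hik)]
  · by_cases h2 : j = p
    · subst h2
      rw [hG.1, h i k h1 (Ne.symm hjk) hik, hp i h1, hp k (Ne.symm hjk), hG.1]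
    · by_cases h3 : k = p
      · subst h3
        rw [hG.2, hG.1, h i j h1 h2 hij, hp i h1, hp j h2, hG.1, hG.2]
      · rw [hp i h1, hp j h2, hp k h3]

theorem pat_symm : Symm3 pat := ⟨pat_symm1, pat_symm2⟩

theorem pat_good' : Good pat := by
  intro x y z w h1 h2 h3 h4
  have := pat_good x y z h1 w h2 h3
  rw [h4] at this
  exact absurd this (by decide)

theorem sum_eq_one {n : ℕ} {f : Fin n → ℕ} (h : ∑ i, f i = 1) :
    ∃ p, f p = 1 ∧ ∀ i, i ≠ p → f i = 0 := by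
  have h1 : ∃ p, f p ≠ 0 := by
    by_contra hcon
    push Not at hcon
    rw [sum_eq_zero fun i _ => hcon i] at h
    exact absurd h (by norm_num)
  obtain ⟨p, hp⟩ := h1
  have h2 := add_sum_erase univ f (mem_univ p)
  have h3 : ∑ i ∈ univ.erase p, f i = 0 := by omega
  rw [sum_eq_zero_iff] at h3
  refine ⟨p, by omega, fun i hi => h3 i (mem_erase.2 ⟨hi, mem_univ i⟩)⟩

theorem coef_one {a : Fin 15 → ℕ} {β : Fin 15 → Fin 15} (hβ : Compare a β) {s : ℕ} (m : ℕ)
    (φ : Fin s → Fin 15) (hφ : ∀ i, Ok β (φ i)) (hk : ∑ i, dg (φ i) ≤ 1)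
    (hlarge : ∀ x, dg x = 0 → Ok β x) : coef aP m φ 1 = coef a m φ 1 := by
  funext F
  unfold coef
  let e : (Fin m → Fin 15) ≃ (Fin m → Fin 15) :=
    Equiv.arrowCongr (Equiv.refl (Fin m)) (Function.Involutive.toPerm β hβ.invo)
  have he : ∀ ψ i, e ψ i = β (ψ i) := fun ψ i => rfl
  refine Fintype.sum_equiv e _ _ fun ψ => ?_
  simp only [he, hβ.deg, hβ.supp]
  by_cases h1 : ∑ i, dg (ψ i) = 1
  · rw [if_pos h1, if_pos h1]
    by_cases h2 : ∏ i, (aP (ψ i) : ℝ) = 0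
    · rw [h2, zero_mul, zero_mul]
    · congr 1
      obtain ⟨p, hp, hp0⟩ := sum_eq_one h1
      have hap : aP (ψ p) ≠ 0 := by
        intro h0
        exact h2 (prod_eq_zero (mem_univ p) (by rw [h0]; norm_num))
      have hS : Str pat (Sum.elim φ ψ) = Str pat (Sum.elim φ (e ψ)) := by
        refine Str_congr_one pat_symm (Sum.inr p) ?_ ?_
        · rintro (i | i) hi
          · rfl
          · have hne : i ≠ p := fun h => hi (by rw [h])
            simp only [Sum.elim_inr, he]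
            exact (hβ.fix _ (hp0 i hne)).symm
        · have hall : ∀ j : Fin s ⊕ Fin m, j ≠ Sum.inr p → Ok β (Sum.elim φ ψ j) := by
            rintro (i | i) hi
            · exact hφ i
            · exact hlarge _ (hp0 i (fun h => hi (by rw [h])))
          have hpair : ∀ j k : Fin s ⊕ Fin m, j ≠ Sum.inr p → k ≠ Sum.inr p → j ≠ k →
              dg (Sum.elim φ ψ j) = 0 ∨ dg (Sum.elim φ ψ k) = 0 := by
            rintro (j | j) (k | k) hj hk' hjk
            · by_contra hcon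
              push Not at hcon
              have hjk' : j ≠ k := fun h => hjk (by rw [h])
              have h3 := add_sum_erase univ (fun i => dg (φ i)) (mem_univ j)
              have h4 : dg (φ k) ≤ ∑ i ∈ univ.erase j, dg (φ i) :=
                single_le_sum (f := fun i => dg (φ i)) (fun i _ => Nat.zero_le _)
                  (mem_erase.2 ⟨Ne.symm hjk', mem_univ k⟩)
              simp only [Sum.elim_inl] at hcon
              omega
            · exact Or.inr (hp0 k (fun h => hk' (by rw [h])))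
            · exact Or.inl (hp0 j (fun h => hj (by rw [h])))
            · exact Or.inl (hp0 j (fun h => hj (by rw [h])))
          intro j k hj hk' hjk
          show pat (ψ p) (Sum.elim φ ψ j) (Sum.elim φ ψ k) =
            pat (β (ψ p)) (Sum.elim φ ψ j) (Sum.elim φ ψ k)
          rcases hpair j k hj hk' hjk with h0 | h0
          · rw [pat_symm2, hall k hk' (ψ p) hap hp _ h0, pat_symm2]
          · exact hall j hj (ψ p) hap hp _ h0
      rw [hS]
  · rw [if_neg h1, if_neg h1]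

/-! ### The main estimate -/

/-- The facts about the extremal families. -/
structure Ext (a : Fin 15 → ℕ) (c : ℝ) : Prop where
  c0 : 1 / 2 ≤ c
  tot : ∀ t, tot (wt a (c * t)) = 3 * (1 + 2 * t)
  dens : ∀ t, dens pat (wt a (c * t)) = 15 * (1 + 2 * t) ^ 3

theorem ext1 : Ext a1 1 := by
  refine ⟨by norm_num, fun t => ?_, fun t => ?_⟩
  · rw [tot_wt, cnt1_1.1, cnt1_1.2]
    push_cast
    ring
  · rw [dens_wt, cnt_1.1, cnt_1.2.1, cnt_1.2.2.1, cnt_1.2.2.2]
    push_cast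
    ring

theorem ext2 : Ext a2 1 := by
  refine ⟨by norm_num, fun t => ?_, fun t => ?_⟩
  · rw [tot_wt, cnt1_2.1, cnt1_2.2]
    push_cast
    ring
  · rw [dens_wt, cnt_2.1, cnt_2.2.1, cnt_2.2.2.1, cnt_2.2.2.2]
    push_cast
    ring

theorem ext3 : Ext a3 (1 / 2) := by
  refine ⟨le_rfl, fun t => ?_, fun t => ?_⟩
  · rw [tot_wt, cnt1_3.1, cnt1_3.2]
    push_cast
    ring
  · rw [dens_wt, cnt_3.1, cnt_3.2.1, cnt_3.2.2.1, cnt_3.2.2.2]
    push_cast
    ring

theorem tot_P (t : ℝ) : tot (wt aP (1 * t)) = 3 * (1 + 2 * t) := by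
  rw [tot_wt, cnt1_P.1, cnt1_P.2]
  push_cast
  ring

theorem dens_P (t : ℝ) : dens pat (wt aP (1 * t)) = 15 * (1 + 2 * t) ^ 3 - 6 * t ^ 3 := by
  rw [dens_wt, cnt_P.1, cnt_P.2.1, cnt_P.2.2.1, cnt_P.2.2.2]
  push_cast
  ring

theorem ext_value {N : ℕ} (hN : 3 ≤ N) (t : ℝ) :
    (3 * (1 + 2 * t)) ^ (N - 3) * (15 * (1 + 2 * t) ^ 3) = 5 / 9 * (3 * (1 + 2 * t)) ^ N := by
  obtain ⟨k, rfl⟩ := Nat.exists_eq_add_of_le hN
  rw [show 3 + k - 3 = k by omega, pow_add (3 * (1 + 2 * t)) 3 k]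
  ring

/-- All we need about a valid certificate. -/
structure Setup (N : ℕ) (Q : (s m : ℕ) → Flag s m → Flag s m → ℝ) (lam : ℝ)
    (sl : (Fin N → Fin 15) → ℝ) : Prop where
  hN : 3 ≤ N
  psd : IsPSD Q
  slack : ∀ τ, 0 ≤ sl τ
  eq : ∀ W : Fin 15 → ℝ, tot W ^ (N - 3) * dens pat W +
        (∑ s ∈ range (N + 1), ∑ m ∈ range (N + 1),
          if s + 2 * m ≤ N then tot W ^ (N - (s + 2 * m)) * sos pat Q s m W else 0) +
        ∑ τ : Fin N → Fin 15, (∏ i, W (τ i)) * sl τ = lam * tot W ^ N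

section setup

variable {N : ℕ} {Q : (s m : ℕ) → Flag s m → Flag s m → ℝ} {lam : ℝ}
  {sl : (Fin N → Fin 15) → ℝ}

theorem Setup.ext_slack (S : Setup N Q lam sl) {a : Fin 15 → ℕ} {c : ℝ} (hE : Ext a c) {t : ℝ}
    (ht : 0 ≤ t) : ∑ τ : Fin N → Fin 15, (∏ i, wt a (c * t) (τ i)) * sl τ ≤
      (lam - 5 / 9) * (3 * (1 + 2 * t)) ^ N := by
  have hc := hE.c0
  have hct : 0 ≤ c * t := mul_nonneg (by linarith) ht
  have h := slack_le S.psd (wt_nonneg a hct) (S.eq (wt a (c * t)))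
  rw [hE.tot, hE.dens, ext_value S.hN] at h
  linarith

theorem Setup.delta_nonneg (S : Setup N Q lam sl) : 0 ≤ lam - 5 / 9 := by
  have h1 := S.ext_slack ext1 (le_refl (0 : ℝ))
  have h2 : 0 ≤ ∑ τ : Fin N → Fin 15, (∏ i, wt a1 (1 * 0) (τ i)) * sl τ :=
    sum_nonneg fun τ _ => mul_nonneg (prod_nonneg fun i _ => wt_nonneg _ (by norm_num) _)
      (S.slack τ)
  have h3 : (0 : ℝ) < (3 * (1 + 2 * 0)) ^ N := by positivity
  by_contra hcon
  push Not at hcon
  exact absurd (h2.trans h1) (not_le.2 (mul_neg_of_neg_of_pos hcon h3))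

theorem pow_le_nine {t : ℝ} (ht0 : 0 ≤ t) (ht1 : t ≤ 1) (k : ℕ) (hk : k ≤ N) :
    (3 * (1 + 2 * t)) ^ k ≤ 9 ^ N :=
  calc (3 * (1 + 2 * t)) ^ k ≤ 9 ^ k := pow_le_pow_left₀ (by linarith) (by linarith) k
    _ ≤ 9 ^ N := pow_le_pow_right₀ (by norm_num) hk

theorem Setup.ext_term (S : Setup N Q lam sl) {a : Fin 15 → ℕ} {c : ℝ} (hE : Ext a c) {t : ℝ}
    (ht0 : 0 ≤ t) (ht1 : t ≤ 1) {s m : ℕ} (hsm : s + 2 * m ≤ N) (φ : Fin s → Fin 15) :
    (∏ i, wt a (c * t) (φ i)) * qf Q s m (view pat m φ (wt a (c * t))) ≤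
      (lam - 5 / 9) * 9 ^ N := by
  have hc := hE.c0
  have hct : 0 ≤ c * t := mul_nonneg (by linarith) ht0
  have h := term_le S.psd S.slack (wt_nonneg a hct) (by rw [hE.tot]; linarith)
    (S.eq (wt a (c * t))) hsm φ
  rw [hE.tot, hE.dens, ext_value S.hN] at h
  have h2 := mul_le_mul_of_nonneg_left (pow_le_nine ht0 ht1 N le_rfl) S.delta_nonneg
  linarith

theorem Setup.per_term (S : Setup N Q lam sl) (hlam : lam ≤ 2) {t : ℝ}
    (ht0 : 0 ≤ t) (ht1 : t ≤ 1) {s m : ℕ} (hsm : s + 2 * m ≤ N) (φ : Fin s → Fin 15) :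
    (∏ i, wt aP (1 * t) (φ i)) * qf Q s m (view pat m φ (wt aP (1 * t))) ≤ 2 * 9 ^ N := by
  have hct : 0 ≤ 1 * t := by linarith
  have h := term_le S.psd S.slack (wt_nonneg aP hct) (by rw [tot_P]; linarith)
    (S.eq (wt aP (1 * t))) hsm φ
  rw [tot_P, dens_P] at h
  have h1 : 0 ≤ 15 * (1 + 2 * t) ^ 3 - 6 * t ^ 3 := by
    have h3 : t ^ 3 ≤ (1 + 2 * t) ^ 3 := pow_le_pow_left₀ ht0 (by linarith) 3
    have h4 : 0 ≤ t ^ 3 := by positivity
    linarith
  have h2 : 0 ≤ (3 * (1 + 2 * t)) ^ (N - 3) * (15 * (1 + 2 * t) ^ 3 - 6 * t ^ 3) :=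
    mul_nonneg (by positivity) h1
  have h3 := pow_le_nine ht0 ht1 N (N := N) le_rfl
  have h4 : 0 ≤ (3 * (1 + 2 * t)) ^ N := by positivity
  nlinarith

theorem Setup.key_fam (S : Setup N Q lam sl) (hlam : lam ≤ 2) {a : Fin 15 → ℕ} {c : ℝ}
    (hE : Ext a c) {s m j₀ : ℕ} (hsm : s + 2 * m ≤ N) {φ : Fin s → Fin 15}
    (hP : ∀ i, aP (φ i) = 1) (ha : ∀ i, a (φ i) = 1)
    (hj : ∀ j : Fin (m + 1), (j : ℕ) < j₀ →
      (1 : ℝ) ^ (j : ℕ) • coef aP m φ j = c ^ (j : ℕ) • coef a m φ j)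
    (hkj : 4 ≤ (∑ i, dg (φ i)) + 2 * j₀) {K : ℝ} (hK0 : 0 ≤ K)
    (hK : ∀ (x : Fin (m + 1) → Flag s m → ℝ) (j₀ : ℕ) (C : ℝ),
      (∀ j : Fin (m + 1), (j : ℕ) < j₀ → x j = 0) →
      (∀ i, qf Q s m (curve x (node m i)) ≤ C) →
      ∀ t, 0 ≤ t → t ≤ 1 → qf Q s m (curve x t) ≤ K * C * t ^ (2 * j₀))
    {t : ℝ} (ht0 : 0 < t) (ht1 : t ≤ 1) :
    (∏ i, wt aP (1 * t) (φ i)) * qf Q s m (view pat m φ (wt aP (1 * t))) ≤
      2 ^ (N + 1) * 9 ^ N * (lam - 5 / 9) +
        2 * K * (8 * 9 ^ N * (2 * (N + 1)) ^ N) * t ^ 4 := by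
  have hk : ∑ i, dg (φ i) ≤ N := by
    calc ∑ i, dg (φ i) ≤ ∑ i : Fin s, 1 := sum_le_sum fun i _ => dg_le _
      _ = s := by simp
      _ ≤ N := by omega
  have h := key_abs (N := N) (m := m) (k := ∑ i, dg (φ i)) (j₀ := j₀) hK0
    (qf_isForm S.psd s m) hK
    (fun j : Fin (m + 1) => (1 : ℝ) ^ (j : ℕ) • coef aP m φ j)
    (fun j : Fin (m + 1) => c ^ (j : ℕ) • coef a m φ j) hj (δ := lam - 5 / 9) (c := c)
    (by linarith) hE.c0 (by omega) hk hkj
    (fun u hu0 hu1 => by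
      have := S.per_term hlam hu0.le hu1 hsm φ
      rwa [prod_wt hP, view_wt, one_mul] at this)
    (fun u hu0 hu1 => by
      have := S.ext_term hE hu0.le hu1 hsm φ
      rwa [prod_wt ha, view_wt] at this) ht0 ht1
  rwa [prod_wt hP, view_wt, one_mul]

theorem Setup.key (S : Setup N Q lam sl) (hlam : lam ≤ 2) {s m : ℕ} (hsm : s + 2 * m ≤ N)
    (φ : Fin s → Fin 15) {K : ℝ} (hK0 : 0 ≤ K)
    (hK : ∀ (x : Fin (m + 1) → Flag s m → ℝ) (j₀ : ℕ) (C : ℝ),
      (∀ j : Fin (m + 1), (j : ℕ) < j₀ → x j = 0) →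
      (∀ i, qf Q s m (curve x (node m i)) ≤ C) →
      ∀ t, 0 ≤ t → t ≤ 1 → qf Q s m (curve x t) ≤ K * C * t ^ (2 * j₀))
    {t : ℝ} (ht0 : 0 < t) (ht1 : t ≤ 1) :
    (∏ i, wt aP (1 * t) (φ i)) * qf Q s m (view pat m φ (wt aP (1 * t))) ≤
      2 ^ (N + 1) * 9 ^ N * (lam - 5 / 9) +
        2 * K * (8 * 9 ^ N * (2 * (N + 1)) ^ N) * t ^ 4 := by
  by_cases hz : ∃ i, aP (φ i) = 0
  · obtain ⟨i, hi⟩ := hz
    have h0 : ∏ i, wt aP (1 * t) (φ i) = 0 := by
      refine prod_eq_zero (mem_univ i) ?_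
      unfold wt
      rw [hi]
      norm_num
    rw [h0, zero_mul]
    have := S.delta_nonneg
    positivity
  push Not at hz
  have hP : ∀ i, aP (φ i) = 1 := fun i => by
    have h1 := hz i
    have h2 := aP_le (φ i)
    omega
  by_cases hk : ∑ i, dg (φ i) ≤ 1
  · by_cases h1 : ∀ i, Ok b1 (φ i) ∧ a1 (φ i) = 1
    · refine S.key_fam hlam ext1 (j₀ := 2) hsm hP (fun i => (h1 i).2) ?_ (by omega) hK0 hK ht0 ht1
      intro j hj
      rw [one_pow, one_smul, one_smul]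
      have hj' : (j : ℕ) = 0 ∨ (j : ℕ) = 1 := by omega
      rcases hj' with hj' | hj'
      · rw [hj']
        exact coef_zero (fun b hb => by rw [a_large b hb, (ok_large1 b hb).2]) m φ
      · rw [hj']
        exact coef_one comp1 m φ (fun i => (h1 i).1) hk (fun x hx => (ok_large1 x hx).1)
    · push Not at h1
      obtain ⟨i₀, hi₀⟩ := h1
      have h3 : ¬ (Ok b1 (φ i₀) ∧ a1 (φ i₀) = 1) := fun h => hi₀ h.1 h.2
      have h4 : dg (φ i₀) = 1 := by
        have h5 := dg_le (φ i₀)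
        by_contra hcon
        exact h3 (ok_large1 _ (by omega))
      have h6 : ∀ i, Ok b2 (φ i) ∧ a2 (φ i) = 1 := by
        intro i
        by_cases hi : i = i₀
        · rw [hi]
          exact ok_tiny _ (hz i₀) h3
        · have h7 := add_sum_erase univ (fun i => dg (φ i)) (mem_univ i₀)
          have h8 : dg (φ i) ≤ ∑ i ∈ univ.erase i₀, dg (φ i) :=
            single_le_sum (f := fun i => dg (φ i)) (fun i _ => Nat.zero_le _)
              (mem_erase.2 ⟨hi, mem_univ i⟩)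
          exact ok_large2 _ (by omega)
      refine S.key_fam hlam ext2 (j₀ := 2) hsm hP (fun i => (h6 i).2) ?_ (by omega) hK0 hK ht0 ht1
      intro j hj
      rw [one_pow, one_smul, one_smul]
      have hj' : (j : ℕ) = 0 ∨ (j : ℕ) = 1 := by omega
      rcases hj' with hj' | hj'
      · rw [hj']
        exact coef_zero (fun b hb => by rw [a_large b hb, (ok_large2 b hb).2]) m φ
      · rw [hj']
        exact coef_one comp2 m φ (fun i => (h6 i).1) hk (fun x hx => (ok_large2 x hx).1)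
  · refine S.key_fam hlam ext3 (j₀ := 1) hsm hP (fun i => rfl) ?_ (by omega) hK0 hK ht0 ht1
    intro j hj
    have hj' : (j : ℕ) = 0 := by omega
    rw [hj', pow_zero, pow_zero, one_smul, one_smul]
    exact coef_zero (fun b hb => by rw [a_large b hb]; rfl) m φ

theorem Setup.slack_P (S : Setup N Q lam sl) {t : ℝ} (ht0 : 0 < t) (ht1 : t ≤ 1) :
    ∑ τ : Fin N → Fin 15, (∏ i, wt aP (1 * t) (τ i)) * sl τ ≤
      2 ^ N * 9 ^ N * (lam - 5 / 9) := by
  have h1 : ∀ b, wt aP (1 * t) b ≤ 2 * wt a3 (1 / 2 * t) b := by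
    intro b
    unfold wt
    have h2 : (aP b : ℝ) ≤ 1 := by exact_mod_cast aP_le b
    have h3 : (a3 b : ℝ) = 1 := by
      unfold a3
      norm_num
    rw [h3]
    have h4 : dg b = 0 ∨ dg b = 1 := by have := dg_le b; omega
    rcases h4 with h4 | h4 <;> rw [h4]
    · rw [pow_zero, pow_zero]
      linarith
    · rw [pow_one, pow_one]
      nlinarith
  have h2 : ∀ τ : Fin N → Fin 15, ∏ i, wt aP (1 * t) (τ i) ≤
      2 ^ N * ∏ i, wt a3 (1 / 2 * t) (τ i) := by
    intro τ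
    calc ∏ i, wt aP (1 * t) (τ i) ≤ ∏ i, (2 * wt a3 (1 / 2 * t) (τ i)) :=
          prod_le_prod (fun i _ => wt_nonneg _ (by linarith) _) fun i _ => h1 _
      _ = _ := by
          rw [prod_mul_distrib, prod_const, card_univ, Fintype.card_fin]
  calc ∑ τ : Fin N → Fin 15, (∏ i, wt aP (1 * t) (τ i)) * sl τ
      ≤ ∑ τ : Fin N → Fin 15, (2 ^ N * ∏ i, wt a3 (1 / 2 * t) (τ i)) * sl τ :=
        sum_le_sum fun τ _ => mul_le_mul_of_nonneg_right (h2 τ) (S.slack τ)
    _ = 2 ^ N * ∑ τ : Fin N → Fin 15, (∏ i, wt a3 (1 / 2 * t) (τ i)) * sl τ := by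
        rw [mul_sum]
        exact sum_congr rfl fun τ _ => by ring
    _ ≤ 2 ^ N * ((lam - 5 / 9) * (3 * (1 + 2 * t)) ^ N) :=
        mul_le_mul_of_nonneg_left (S.ext_slack ext3 ht0.le) (by positivity)
    _ ≤ 2 ^ N * ((lam - 5 / 9) * 9 ^ N) :=
        mul_le_mul_of_nonneg_left (mul_le_mul_of_nonneg_left
          (pow_le_nine ht0.le ht1 N le_rfl) S.delta_nonneg) (by positivity)
    _ = _ := by ring

theorem Setup.final (S : Setup N Q lam sl) (hlam : lam ≤ 2) {K : ℝ} (hK0 : 0 ≤ K)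
    (hK : ∀ (s m : ℕ), s + 2 * m ≤ N → ∀ (x : Fin (m + 1) → Flag s m → ℝ) (j₀ : ℕ) (C : ℝ),
      (∀ j : Fin (m + 1), (j : ℕ) < j₀ → x j = 0) →
      (∀ i, qf Q s m (curve x (node m i)) ≤ C) →
      ∀ t, 0 ≤ t → t ≤ 1 → qf Q s m (curve x t) ≤ K * C * t ^ (2 * j₀))
    {t : ℝ} (ht0 : 0 < t) (ht1 : t ≤ 1) :
    6 * t ^ 3 ≤ (((N : ℝ) + 1) * (N + 1) * (9 ^ N * (15 ^ N *
        (2 ^ (N + 1) * 9 ^ N + 2 * K * (8 * 9 ^ N * (2 * (N + 1)) ^ N)))) + 2 ^ N * 9 ^ N) *
      ((lam - 5 / 9) + t ^ 4) := by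
  have hδ := S.delta_nonneg
  set δ := lam - 5 / 9 with hδdef
  set C₀ : ℝ := 8 * 9 ^ N * (2 * ((N : ℝ) + 1)) ^ N with hC₀
  have hC₀0 : 0 ≤ C₀ := by positivity
  have ht4 : 0 ≤ t ^ 4 := by positivity
  set M : ℝ := 2 ^ (N + 1) * 9 ^ N * δ + 2 * K * C₀ * t ^ 4 with hM
  have hM0 : 0 ≤ M := by positivity
  have hpos : (0 : ℝ) ≤ 3 * (1 + 2 * t) := by linarith
  have hone : (1 : ℝ) ≤ 3 * (1 + 2 * t) := by linarith
  have hsos : ∀ s m, (if s + 2 * m ≤ N then
      tot (wt aP (1 * t)) ^ (N - (s + 2 * m)) * sos pat Q s m (wt aP (1 * t)) else 0) ≤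
      9 ^ N * (15 ^ N * M) := by
    intro s m
    split_ifs with hsm
    · rw [tot_P]
      have h1 : sos pat Q s m (wt aP (1 * t)) ≤ 15 ^ N * M := by
        unfold sos
        calc ∑ φ : Fin s → Fin 15, (∏ i, wt aP (1 * t) (φ i)) *
                qf Q s m (view pat m φ (wt aP (1 * t)))
            ≤ ∑ φ : Fin s → Fin 15, M :=
              sum_le_sum fun φ _ => S.key hlam hsm φ hK0 (hK s m hsm) ht0 ht1
          _ = 15 ^ s * M := by
              rw [sum_const, card_univ, nsmul_eq_mul]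
              simp
          _ ≤ 15 ^ N * M := by
              refine mul_le_mul_of_nonneg_right (pow_le_pow_right₀ (by norm_num) ?_) hM0
              omega
      exact mul_le_mul (pow_le_nine ht0.le ht1 _ (Nat.sub_le _ _)) h1
        (sos_nonneg pat S.psd s m (wt_nonneg _ (by linarith))) (by positivity)
    · positivity
  have hsum : (∑ s ∈ range (N + 1), ∑ m ∈ range (N + 1), if s + 2 * m ≤ N then
      tot (wt aP (1 * t)) ^ (N - (s + 2 * m)) * sos pat Q s m (wt aP (1 * t)) else 0) ≤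
      ((N : ℝ) + 1) * (N + 1) * (9 ^ N * (15 ^ N * M)) := by
    calc _ ≤ ∑ s ∈ range (N + 1), ∑ m ∈ range (N + 1), (9 : ℝ) ^ N * (15 ^ N * M) :=
          sum_le_sum fun s _ => sum_le_sum fun m _ => hsos s m
      _ = _ := by
          rw [sum_const, sum_const, card_range, nsmul_eq_mul, nsmul_eq_mul]
          push_cast
          ring
  have heq := S.eq (wt aP (1 * t))
  rw [tot_P] at heq hsum
  rw [dens_P, mul_sub, ext_value S.hN] at heq
  have hsl := S.slack_P ht0 ht1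
  rw [← hδdef] at hsl
  have hT : (1 : ℝ) ≤ (3 * (1 + 2 * t)) ^ (N - 3) := one_le_pow₀ hone
  have hTN : 0 ≤ (3 * (1 + 2 * t)) ^ N := by positivity
  have ht3 : 0 ≤ t ^ 3 := by positivity
  have h6 : 6 * t ^ 3 ≤ (3 * (1 + 2 * t)) ^ (N - 3) * (6 * t ^ 3) := by nlinarith
  have hδT : 0 ≤ δ * (3 * (1 + 2 * t)) ^ N := mul_nonneg hδ hTN
  have hlamT : lam * (3 * (1 + 2 * t)) ^ N - 5 / 9 * (3 * (1 + 2 * t)) ^ N =
      δ * (3 * (1 + 2 * t)) ^ N := by rw [hδdef]; ring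
  have hmain : 6 * t ^ 3 ≤ ((N : ℝ) + 1) * (N + 1) * (9 ^ N * (15 ^ N * M)) +
      2 ^ N * 9 ^ N * δ := by linarith
  refine hmain.trans ?_
  have hMle : M ≤ (2 ^ (N + 1) * 9 ^ N + 2 * K * C₀) * (δ + t ^ 4) := by
    rw [hM]
    have e1 : 0 ≤ (2 : ℝ) ^ (N + 1) * 9 ^ N * t ^ 4 := by positivity
    have e2 : 0 ≤ 2 * K * C₀ * δ := by positivity
    nlinarith
  have e3 : (2 : ℝ) ^ N * 9 ^ N * δ ≤ 2 ^ N * 9 ^ N * (δ + t ^ 4) :=
    mul_le_mul_of_nonneg_left (by linarith) (by positivity)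
  have e4 : ((N : ℝ) + 1) * (N + 1) * (9 ^ N * (15 ^ N * M)) ≤
      ((N : ℝ) + 1) * (N + 1) * (9 ^ N * (15 ^ N *
        ((2 ^ (N + 1) * 9 ^ N + 2 * K * C₀) * (δ + t ^ 4)))) := by
    refine mul_le_mul_of_nonneg_left (mul_le_mul_of_nonneg_left
      (mul_le_mul_of_nonneg_left hMle (by positivity)) (by positivity)) (by positivity)
  calc _ ≤ _ := add_le_add e4 e3
    _ = _ := by ring

end setup

theorem Str_fonDerFlaass {n : ℕ} (τ : Fin n → Fin 15) : FonDerFlaass (Str pat τ) := by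
  refine ⟨fun x => cls (τ x), fun x y => arc (τ x) (τ y) = true, ?_, ?_, ?_⟩
  · intro x y hxy
    show arc (τ x) (τ y) = true ↔ ¬ arc (τ y) (τ x) = true
    rw [arc_iff _ _ hxy]
    simp
  · intro x y hxy
    show ¬ arc (τ x) (τ y) = true
    rw [arc_cls _ _ hxy]
    simp
  · intro e
    by_cases hc : e.card = 3
    · obtain ⟨a, b, c, hab, hac, hbc, rfl⟩ := card_eq_three.1 hc
      rw [triple_mem_Str pat_symm τ hab hac hbc, pat_arc]
      have h1 : (∃ x ∈ ({a, b, c} : Finset (Fin n)), ∃ y ∈ ({a, b, c} : Finset (Fin n)),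
          cls (τ x) ≠ cls (τ y)) ↔ ¬ (cls (τ a) = cls (τ b) ∧ cls (τ a) = cls (τ c)) := by
        constructor
        · rintro ⟨x, hx, y, hy, hxy⟩ ⟨h2, h3⟩
          have : ∀ z ∈ ({a, b, c} : Finset (Fin n)), cls (τ a) = cls (τ z) := by
            intro z hz
            simp only [mem_insert, mem_singleton] at hz
            rcases hz with rfl | rfl | rfl
            · rfl
            · exact h2
            · exact h3
          exact hxy ((this x hx).symm.trans (this y hy))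
        · intro h
          by_cases h2 : cls (τ a) = cls (τ b)
          · exact ⟨a, by simp, c, by simp, fun h3 => h ⟨h2, h3⟩⟩
          · exact ⟨a, by simp, b, by simp, h2⟩
      have h2 : (∀ x ∈ ({a, b, c} : Finset (Fin n)), ∃ y ∈ ({a, b, c} : Finset (Fin n)),
          y ≠ x ∧ ¬ arc (τ x) (τ y) = true) ↔
          ¬ (arc (τ a) (τ b) = true ∧ arc (τ a) (τ c) = true) ∧
          ¬ (arc (τ b) (τ a) = true ∧ arc (τ b) (τ c) = true) ∧
          ¬ (arc (τ c) (τ a) = true ∧ arc (τ c) (τ b) = true) := by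
        constructor
        · intro h
          refine ⟨?_, ?_, ?_⟩
          · rintro ⟨h3, h4⟩
            obtain ⟨y, hy, hne, hn⟩ := h a (by simp)
            simp only [mem_insert, mem_singleton] at hy
            rcases hy with rfl | rfl | rfl
            · exact hne rfl
            · exact hn h3
            · exact hn h4
          · rintro ⟨h3, h4⟩
            obtain ⟨y, hy, hne, hn⟩ := h b (by simp)
            simp only [mem_insert, mem_singleton] at hy
            rcases hy with rfl | rfl | rfl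
            · exact hn h3
            · exact hne rfl
            · exact hn h4
          · rintro ⟨h3, h4⟩
            obtain ⟨y, hy, hne, hn⟩ := h c (by simp)
            simp only [mem_insert, mem_singleton] at hy
            rcases hy with rfl | rfl | rfl
            · exact hn h3
            · exact hn h4
            · exact hne rfl
        · rintro ⟨ha, hb, hc'⟩ x hx
          simp only [mem_insert, mem_singleton] at hx
          rcases hx with rfl | rfl | rfl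
          · by_cases h3 : arc (τ x) (τ b) = true
            · exact ⟨c, by simp, Ne.symm hac, fun h4 => ha ⟨h3, h4⟩⟩
            · exact ⟨b, by simp, Ne.symm hab, h3⟩
          · by_cases h3 : arc (τ x) (τ a) = true
            · exact ⟨c, by simp, Ne.symm hbc, fun h4 => hb ⟨h3, h4⟩⟩
            · exact ⟨a, by simp, hab, h3⟩
          · by_cases h3 : arc (τ x) (τ a) = true
            · exact ⟨b, by simp, hbc, fun h4 => hc' ⟨h3, h4⟩⟩
            · exact ⟨a, by simp, hac, h3⟩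
      rw [h1, h2]
      simp only [Bool.and_eq_true, Bool.not_eq_true', hc, true_and, and_assoc,
        ← Bool.not_eq_true, beq_iff_eq]
    · constructor
      · intro h
        exact absurd (Str_three pat τ e h) hc
      · intro h
        exact absurd h.1 hc

/-- The barrier. -/
theorem barrier (N : ℕ) (hN : 3 ≤ N) : ∃ ε : ℝ, 0 < ε ∧
    ∀ Q : (s m : ℕ) → Flag s m → Flag s m → ℝ, IsPSD Q → ∀ lam : ℝ,
      (∀ H : Finset (Finset (Fin N)), (∀ e ∈ H, e.card = 3) → TetraFree H → FonDerFlaass H →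
        value Q H ≤ lam) → 5 / 9 + ε ≤ lam := by
  choose K hK0 hK using core
  set KN : ℝ := ∑ m ∈ range (N + 1), K m with hKN
  have hKN0 : 0 ≤ KN := sum_nonneg fun m _ => hK0 m
  have hKle : ∀ m, m ≤ N → K m ≤ KN := fun m hm =>
    single_le_sum (f := K) (fun m _ => hK0 m) (mem_range.2 (by omega))
  set A : ℝ := ((N : ℝ) + 1) * (N + 1) * (9 ^ N * (15 ^ N *
        (2 ^ (N + 1) * 9 ^ N + 2 * KN * (8 * 9 ^ N * (2 * (N + 1)) ^ N)))) + 2 ^ N * 9 ^ N with hA
  have hA1 : 1 ≤ A := by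
    have h1 : (1 : ℝ) ≤ 2 ^ N := one_le_pow₀ (by norm_num)
    have h2 : (1 : ℝ) ≤ 9 ^ N := one_le_pow₀ (by norm_num)
    have h3 : (0 : ℝ) ≤ ((N : ℝ) + 1) * (N + 1) * (9 ^ N * (15 ^ N *
        (2 ^ (N + 1) * 9 ^ N + 2 * KN * (8 * 9 ^ N * (2 * (N + 1)) ^ N)))) := by positivity
    have h4 : (1 : ℝ) ≤ 2 ^ N * 9 ^ N := by nlinarith
    linarith
  have hA0 : 0 < A := by linarith
  refine ⟨min 1 (5 / A ^ 4), lt_min one_pos (by positivity), ?_⟩
  intro Q hQ lam hlam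
  by_cases h2 : lam ≤ 2
  · obtain ⟨sl, hsl, heq⟩ := evaluate hN pat_symm (fun τ =>
      hlam (Str pat τ) (Str_three pat τ) (Str_tetraFree pat_good' τ) (Str_fonDerFlaass τ))
    have S : Setup N Q lam sl := ⟨hN, hQ, hsl, heq⟩
    have hfin := S.final h2 hKN0 (fun s m hsm x j₀ C hx hC t ht0 ht1 => by
      have h3 := hK m (Flag s m → ℝ) (qf Q s m) (qf_isForm hQ s m) x j₀ C hx hC t ht0 ht1
      have hC0 : 0 ≤ C := ((qf_isForm hQ s m).nonneg _).trans (hC 0)
      have h4 : K m * C * t ^ (2 * j₀) ≤ KN * C * t ^ (2 * j₀) := by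
        refine mul_le_mul_of_nonneg_right (mul_le_mul_of_nonneg_right (hKle m (by omega)) hC0) ?_
        positivity
      exact h3.trans h4) (t := 1 / A) (by positivity) (by rw [div_le_one hA0]; exact hA1)
    rw [← hA] at hfin
    have h5 : 6 * (1 / A) ^ 3 = 6 / A ^ 3 := by
      rw [div_pow, one_pow]
      ring
    have h6 : A * ((lam - 5 / 9) + (1 / A) ^ 4) = A * (lam - 5 / 9) + 1 / A ^ 3 := by
      field_simp
    rw [h5, h6] at hfin
    have h7 : 5 / A ^ 3 ≤ A * (lam - 5 / 9) := by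
      have : 6 / A ^ 3 = 5 / A ^ 3 + 1 / A ^ 3 := by ring
      linarith
    have h8 : 5 / A ^ 4 ≤ lam - 5 / 9 := by
      have h9 : 5 / A ^ 4 = (1 / A) * (5 / A ^ 3) := by
        field_simp
      rw [h9]
      calc (1 / A) * (5 / A ^ 3) ≤ (1 / A) * (A * (lam - 5 / 9)) :=
            mul_le_mul_of_nonneg_left h7 (by positivity)
        _ = lam - 5 / 9 := by field_simp
    have h10 := min_le_right (1 : ℝ) (5 / A ^ 4)
    linarith
  · push Not at h2
    have h10 := min_le_left (1 : ℝ) (5 / A ^ 4)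
    linarith

end Pool.Agent.Zk14.Bar
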